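import Pool.Agent.Lib.MP_a3b162_co.Core

/-!
MP_a3b162_co, hand-in NoGaps: definitions and basic lemmas (general dimension `d`).
A centrally symmetric polytope is given by `v : Fin n → ℝ^d`, one vertex of every antipodal pair.
-/

set_option autoImplicit false

namespace Pool.Agent.Lib.MP_a3b162_co.NG

open Pool.Agent.Lib.MP_a3b162_co

variable {d n : ℕ}

/-- at most `d` of the vectors are always linearly independent -/
def GenA (v : Fin n → (Fin d → ℝ)) : Prop :=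
  ∀ I : Finset (Fin n), I.card ≤ d → LinearIndependent ℝ (fun i : I => v i)

/-- no hyperplane contains more than `d` of the points `± v i` -/
def GenB (v : Fin n → (Fin d → ℝ)) : Prop :=
  ∀ (I : Finset (Fin n)) (φ : (Fin d → ℝ) →ₗ[ℝ] ℝ), (∀ i ∈ I, |φ (v i)| = 1) → I.card ≤ d

/-- every `v i` is a vertex of the hull of the points `± v k` -/
def Vtx (v : Fin n → (Fin d → ℝ)) : Prop :=
  ∀ i, ∃ φ : (Fin d → ℝ) →ₗ[ℝ] ℝ, φ (v i) = 1 ∧ ∀ k, k ≠ i → |φ (v k)| < 1

/-- the number of classes of edges -/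
noncomputable def EE (v : Fin n → (Fin d → ℝ)) : ℕ :=
  {t : Fin n × Fin n × Bool | t.1 < t.2.1 ∧ Pres v t.1 t.2.1 t.2.2}.ncard

/-- the polytope -/
def PPd (v : Fin n → (Fin d → ℝ)) : Set (Fin d → ℝ) :=
  convexHull ℝ (Set.range fun q : Fin n × Bool => sg q.2 • v q.1)

/-- the segment is contained in a proper face -/
def WPres (v : Fin n → (Fin d → ℝ)) (i j : Fin n) (b : Bool) : Prop :=
  ∃ φ : (Fin d → ℝ) →ₗ[ℝ] ℝ, φ (v i) = 1 ∧ φ (v j) = sg b ∧ ∀ k, |φ (v k)| ≤ 1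

/-- one more vector -/
def add1 (v : Fin n → (Fin d → ℝ)) (x : Fin d → ℝ) : Fin (n + 1) → (Fin d → ℝ) :=
  Fin.snoc (α := fun _ => Fin d → ℝ) v x

/-- the hyperplanes through `d` of the points `± v i` -/
def Phi (v : Fin n → (Fin d → ℝ)) : Set ((Fin d → ℝ) →ₗ[ℝ] ℝ) :=
  {φ | ∃ I : Finset (Fin n), I.card = d ∧ ∀ i ∈ I, |φ (v i)| = 1}

/-- `x` separates the hyperplanes of `v` -/
def SG (v : Fin n → (Fin d → ℝ)) (x : Fin d → ℝ) : Prop :=
  ∀ φ ∈ Phi v, ∀ ψ ∈ Phi v, φ ≠ ψ → φ x ≠ ψ x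

@[simp] theorem add1_cast (v : Fin n → (Fin d → ℝ)) (x : Fin d → ℝ) (k : Fin n) :
    add1 v x k.castSucc = v k := by
  simp [add1]

@[simp] theorem add1_last (v : Fin n → (Fin d → ℝ)) (x : Fin d → ℝ) :
    add1 v x (Fin.last n) = x := by
  simp [add1]

theorem add1_eta (u : Fin (n + 1) → (Fin d → ℝ)) :
    add1 (fun k : Fin n => u k.castSucc) (u (Fin.last n)) = u := by
  funext k
  refine Fin.lastCases ?_ (fun k => ?_) k <;> simp

theorem genA_init {v : Fin n → (Fin d → ℝ)} {x : Fin d → ℝ} (h : GenA (add1 v x)) : GenA v := by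
  classical
  intro I hI
  have h1 := h (I.map Fin.castSuccEmb) (by rwa [Finset.card_map])
  let e : I → (I.map Fin.castSuccEmb : Finset (Fin (n + 1))) := fun i =>
    ⟨Fin.castSuccEmb (i : Fin n), Finset.mem_map_of_mem _ i.2⟩
  have he : Function.Injective e := by
    intro i j hij
    apply Subtype.ext
    exact Fin.castSuccEmb.injective (congrArg Subtype.val hij)
  have h2 := h1.comp e he
  have h3 : (fun i : I => v i) = (fun i : (I.map Fin.castSuccEmb : Finset (Fin (n + 1))) =>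
      add1 v x i) ∘ e := by
    funext i
    simp [e]
  rw [h3]
  exact h2

theorem genB_init {v : Fin n → (Fin d → ℝ)} {x : Fin d → ℝ} (h : GenB (add1 v x)) : GenB v := by
  intro I φ hφ
  have h1 := h (I.map Fin.castSuccEmb) φ (by
    intro i hi
    obtain ⟨k, hk, rfl⟩ := Finset.mem_map.1 hi
    simpa using hφ k hk)
  rwa [Finset.card_map] at h1

theorem vtx_init {v : Fin n → (Fin d → ℝ)} {x : Fin d → ℝ} (h : Vtx (add1 v x)) : Vtx v := by
  intro i
  obtain ⟨φ, h1, h2⟩ := h i.castSucc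
  refine ⟨φ, by simpa using h1, fun k hk => ?_⟩
  have h3 := h2 k.castSucc (fun h => hk (Fin.castSucc_injective n h))
  simpa using h3

theorem pres_symm {v : Fin n → (Fin d → ℝ)} {i j : Fin n} {b : Bool} (h : Pres v i j b) :
    Pres v j i b := by
  obtain ⟨φ, h1, h2, h3⟩ := h
  refine ⟨sg b • φ, ?_, ?_, fun k hk1 hk2 => ?_⟩
  · rw [LinearMap.smul_apply, h2, smul_eq_mul, sg_mul_self]
  · rw [LinearMap.smul_apply, h1, smul_eq_mul, mul_one]
  · rw [LinearMap.smul_apply, smul_eq_mul, abs_mul, abs_sg, one_mul]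
    exact h3 k hk2 hk1

theorem pres_wpres {v : Fin n → (Fin d → ℝ)} {i j : Fin n} {b : Bool} (h : Pres v i j b) :
    WPres v i j b := by
  obtain ⟨φ, h1, h2, h3⟩ := h
  refine ⟨φ, h1, h2, fun k => ?_⟩
  by_cases hk1 : k = i
  · rw [hk1, h1]; simp
  by_cases hk2 : k = j
  · rw [hk2, h2, abs_sg]
  exact (h3 k hk1 hk2).le

theorem vtx_ne {v : Fin n → (Fin d → ℝ)} (h : Vtx v) {i j : Fin n} (hij : i ≠ j) (b : Bool) :
    v i ≠ sg b • v j := by
  intro he
  obtain ⟨φ, h1, h2⟩ := h i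
  have h3 := h2 j hij.symm
  rw [he, map_smul, smul_eq_mul] at h1
  have h4 : |sg b * φ (v j)| = 1 := by rw [h1]; simp
  rw [abs_mul, abs_sg, one_mul] at h4
  linarith

theorem genA_smul {v : Fin n → (Fin d → ℝ)} {x : Fin d → ℝ} (h : GenA (add1 v x)) {s : ℝ}
    (hs : s ≠ 0) : GenA (add1 v (s • x)) := by
  intro I hI
  have h1 := h I hI
  let w : I → ℝˣ := fun i => if (i : Fin (n + 1)) = Fin.last n then Units.mk0 s hs else 1
  have h2 := h1.units_smul w
  have h3 : (fun i : I => add1 v (s • x) i) = w • (fun i : I => add1 v x i) := by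
    funext ⟨i, hi⟩
    simp only [Pi.smul_apply', w]
    rcases Fin.eq_castSucc_or_eq_last i with ⟨k, rfl⟩ | rfl
    · rw [if_neg (Fin.castSucc_lt_last k).ne]
      simp
    · simp [Units.smul_def]
  rw [h3]
  exact h2

theorem EE_mono {v v' : Fin n → (Fin d → ℝ)}
    (h : ∀ i j : Fin n, i < j → ∀ b, Pres v i j b → Pres v' i j b) : EE v ≤ EE v' := by
  unfold EE
  refine Set.ncard_le_ncard ?_ (Set.toFinite _)
  rintro ⟨i, j, b⟩ ⟨h1, h2⟩
  exact ⟨h1, h i j h1 b h2⟩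

end Pool.Agent.Lib.MP_a3b162_co.NG
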