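import Pool.Agent.Lib.MP_a3b162_co.NG.EdgeLe

/-!
MODULE ng7.  From a polytope to a family `v`.
-/

set_option autoImplicit false

namespace Pool.Agent.Lib.MP_a3b162_co.NG

open Pool.Agent.Lib.MP_a3b162_co

variable {d n : ℕ}

theorem ng7_span {P : Set (Fin d → ℝ)} (hP : IsPolytope P) {c : Fin d → ℝ}
    {v : Fin n → (Fin d → ℝ)}
    (hr : Set.range (fun q : Fin n × Bool => c + sg q.2 • v q.1) = P.extremePoints ℝ) :
    Submodule.span ℝ (Set.range v) = ⊤ := by
  have h2 : ∀ x ∈ P, x - c ∈ Submodule.span ℝ (Set.range v) := by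
    intro x hx
    rw [← hull_ext hP] at hx
    have hcx : Convex ℝ {x | x - c ∈ Submodule.span ℝ (Set.range v)} := by
      intro x hx y hy a b _ _ hab
      show a • x + b • y - c ∈ Submodule.span ℝ (Set.range v)
      have e : a • x + b • y - c = a • (x - c) + b • (y - c) := by
        have : c = (a + b) • c := by rw [hab, one_smul]
        conv_lhs => rw [this]
        module
      rw [e]
      exact Submodule.add_mem _ (Submodule.smul_mem _ _ hx) (Submodule.smul_mem _ _ hy)
    refine convexHull_min ?_ hcx hx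
    rw [← hr]
    rintro _ ⟨q, rfl⟩
    show c + sg q.2 • v q.1 - c ∈ Submodule.span ℝ (Set.range v)
    rw [add_sub_cancel_left]
    exact Submodule.smul_mem _ _ (Submodule.subset_span ⟨_, rfl⟩)
  have h3 : vectorSpan ℝ P ≤ Submodule.span ℝ (Set.range v) := by
    rw [vectorSpan_def, Submodule.span_le]
    rintro _ ⟨x, hx, y, hy, rfl⟩
    have e : x -ᵥ y = (x - c) - (y - c) := by
      rw [vsub_eq_sub]
      abel
    show x -ᵥ y ∈ Submodule.span ℝ (Set.range v)
    rw [e]
    exact Submodule.sub_mem _ (h2 x hx) (h2 y hy)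
  have h4 : vectorSpan ℝ P = ⊤ := by
    have h2 := congrArg AffineSubspace.direction hP.2
    rwa [direction_affineSpan, AffineSubspace.direction_top] at h2
  rw [h4] at h3
  exact top_le_iff.1 h3

theorem ng7_vtx {P : Set (Fin d → ℝ)} (hP : IsPolytope P) {c : Fin d → ℝ}
    (hc : ∀ x, c + x ∈ P → c - x ∈ P) {v : Fin n → (Fin d → ℝ)}
    (hi : Function.Injective (fun q : Fin n × Bool => c + sg q.2 • v q.1))
    (hr : Set.range (fun q : Fin n × Bool => c + sg q.2 • v q.1) = P.extremePoints ℝ) :
    Vtx v := by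
  intro i
  have hx1 : c + sg true • v i ∈ P.extremePoints ℝ := by
    rw [← hr]
    exact ⟨(i, true), rfl⟩
  have hx2 : c + sg false • v i ∈ P.extremePoints ℝ := by
    rw [← hr]
    exact ⟨(i, false), rfl⟩
  have hexp := ga_exposed hP hx1
  have hne : ({c + sg true • v i} : Set (Fin d → ℝ)) ≠ P := by
    intro h
    have h1 : c + sg false • v i ∈ ({c + sg true • v i} : Set (Fin d → ℝ)) := by
      rw [h]
      exact extremePoints_subset hx2
    rw [Set.mem_singleton_iff] at h1
    have h2 := @hi (i, false) (i, true) h1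
    simp at h2
  obtain ⟨φ, hφ⟩ := face_expo hP hc v hr hexp (Set.singleton_nonempty _) hne {(i, true)} (by
    intro q
    rw [Finset.mem_singleton, Set.mem_singleton_iff]
    constructor
    · rintro rfl
      rfl
    · intro h
      exact hi h)
  refine ⟨φ, by simpa using (hφ (i, true)).1 (by simp), fun k hk => ?_⟩
  have g1 := (hφ (k, true)).2 (by simp [hk])
  have g2 := (hφ (k, false)).2 (by simp)
  simp only [sg_true, sg_false, one_mul, neg_mul] at g1 g2
  rw [abs_lt]
  constructor <;> linarith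

theorem from_poly (hd : 2 ≤ d) {P : Set (Fin d → ℝ)} (hP : IsPolytope P) (hcs : IsCS P)
    (hn : f 0 P = 2 * n) :
    ∃ v : Fin n → (Fin d → ℝ), d ≤ n ∧ Vtx v ∧ f 1 P ≤ 2 * EE v := by
  obtain ⟨c, hc⟩ := hcs
  obtain ⟨m, v, h0, hi, hr⟩ := half_system (by omega) hP hc
  obtain rfl : m = n := by omega
  refine ⟨v, ?_, ng7_vtx hP hc hi hr, edges_le hd hP hc hi hr⟩
  have h1 := finrank_range_le_card (R := ℝ) v
  rw [Set.finrank, ng7_span hP hr, finrank_top] at h1
  simpa using h1

end Pool.Agent.Lib.MP_a3b162_co.NG
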