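import Pool.Agent.Lib.MP_a3b162_co.NG.PolyA

/-!
MODULE ng4 (40 min).  `PPd v` is simplicial (general dimension version of `LG.lean`: copy its proof;
`Generic` is replaced by `GenA`, `GenB`, and `ext_pp` by `ppd_ext`, which only needs `Vtx`).
-/

set_option autoImplicit false

namespace Pool.Agent.Lib.MP_a3b162_co.NG

open Pool.Agent.Lib.MP_a3b162_co

variable {d n : ℕ}

theorem ng4_range {v : Fin n → (Fin d → ℝ)} (hV : Vtx v) :
    Set.range (fun q : Fin n × Bool => (0 : Fin d → ℝ) + sg q.2 • v q.1) =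
      (PPd v).extremePoints ℝ := by
  rw [ppd_ext hV]
  congr 1
  funext q
  rw [zero_add]

theorem ng4_li {v : Fin n → (Fin d → ℝ)} (hA : GenA v) (hB : GenB v) {W : Finset (Fin n × Bool)}
    (hW : Expo v W) : LinearIndependent ℝ (fun q : W => sg (q : Fin n × Bool).2 • v (q : Fin n × Bool).1) := by
  classical
  obtain ⟨φ, hφ⟩ := hW
  have h1 : ∀ q ∈ W, φ (v q.1) = sg q.2 := by
    intro q hq
    have h2 := (hφ q).1 hq
    have h3 := sg_mul_self q.2
    calc φ (v q.1) = sg q.2 * (sg q.2 * φ (v q.1)) := by rw [← mul_assoc, h3, one_mul]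
      _ = sg q.2 := by rw [h2, mul_one]
  have hinj : ∀ q ∈ W, ∀ r ∈ W, q.1 = r.1 → q = r := by
    intro q hq r hr h
    have h2 := h1 q hq
    have h3 := h1 r hr
    rw [h, h3] at h2
    have h4 : q.2 = r.2 := by
      revert h2
      cases q.2 <;> cases r.2 <;> norm_num
    exact Prod.ext h h4
  have hσ : ∀ i ∈ W.image Prod.fst, |φ (v i)| = 1 := by
    intro i hi
    obtain ⟨q, hq, rfl⟩ := Finset.mem_image.1 hi
    rw [h1 q hq, abs_sg]
  have hcard := hB (W.image Prod.fst) φ hσ
  have hli := hA (W.image Prod.fst) hcard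
  let e : W → (W.image Prod.fst : Finset (Fin n)) := fun q =>
    ⟨(q : Fin n × Bool).1, Finset.mem_image_of_mem _ q.2⟩
  have he : Function.Injective e := by
    intro q r h
    apply Subtype.ext
    exact hinj _ q.2 _ r.2 (congrArg Subtype.val h)
  have h2 := hli.comp e he
  have h3 := h2.units_smul (fun q : W => Units.mk0 (sg (q : Fin n × Bool).2) (by
    cases (q : Fin n × Bool).2 <;> norm_num))
  exact h3

theorem ppd_simplicial (hd : 1 ≤ d) (hn : d ≤ n) {v : Fin n → (Fin d → ℝ)} (hA : GenA v)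
    (hB : GenB v) (hV : Vtx v) : IsSimplicial (PPd v) := by
  classical
  intro F hF hFP
  rcases F.eq_empty_or_nonempty with rfl | hne
  · exact ⟨∅, affineIndependent_of_subsingleton _ _, by simp⟩
  set W : Finset (Fin n × Bool) := Finset.univ.filter (fun q => sg q.2 • v q.1 ∈ F) with hWdef
  have hW : ∀ q, q ∈ W ↔ (0 : Fin d → ℝ) + sg q.2 • v q.1 ∈ F := by
    intro q
    rw [zero_add, hWdef, Finset.mem_filter]
    exact ⟨fun h => h.2, fun h => ⟨Finset.mem_univ _, h⟩⟩
  have hE := face_expo (ppd_polytope hd hn hA) (c := 0) (ppd_cs v) v (ng4_range hV) hF hne hFP W hW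
  have hli := ng4_li hA hB hE
  have hai := hli.affineIndependent.range
  refine ⟨W.image (fun q => sg q.2 • v q.1), ?_, ?_⟩
  · have e : Set.range (fun q : W => sg (q : Fin n × Bool).2 • v (q : Fin n × Bool).1) =
        ((W.image (fun q => sg q.2 • v q.1) : Finset _) : Set _) := by
      ext y
      simp only [Set.mem_range, Finset.coe_image, Set.mem_image, Finset.mem_coe, Subtype.exists,
        exists_prop]
    rw [e] at hai
    exact hai
  · rw [← face_hull (ppd_polytope hd hn hA) hF hne, ppd_ext hV]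
    congr 1
    ext y
    simp only [Set.mem_inter_iff, Set.mem_range, Finset.coe_image, Set.mem_image, Finset.mem_coe]
    constructor
    · rintro ⟨hy, q, rfl⟩
      exact ⟨q, Finset.mem_filter.2 ⟨Finset.mem_univ _, hy⟩, rfl⟩
    · rintro ⟨q, hq, rfl⟩
      exact ⟨(Finset.mem_filter.1 hq).2, q, rfl⟩

end Pool.Agent.Lib.MP_a3b162_co.NG
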