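import Pool.Agent.Lib.MP_a3b162_co.NG.Induct
import Pool.Agent.Lib.MP_a3b162_co.NG.PolyB
import Pool.Agent.Lib.MP_a3b162_co.NG.EdgeGe
import Pool.Agent.Lib.MP_a3b162_co.NG.FromPoly

/-!
No gaps in the numbers of edges of centrally symmetric simplicial polytopes.
-/

set_option autoImplicit false

namespace Pool.Agent.Lib.MP_a3b162_co.NG

open Pool.Agent.Lib.MP_a3b162_co

theorem nogaps {d n m : ℕ} (hd : 4 ≤ d) {Q : Set (Fin d → ℝ)} (hQ : IsPolytope Q)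
    (hcs : IsCS Q) (hn : f 0 Q = 2 * n) (h1 : d * (n - 1) ≤ m) (h2 : 2 * m ≤ f 1 Q) :
    ∃ P : Set (Fin d → ℝ), IsPolytope P ∧ IsCS P ∧ IsSimplicial P ∧ f 0 P = 2 * n ∧
      f 1 P = 2 * m := by
  obtain ⟨v, hdn, hV, h3⟩ := from_poly (by omega) hQ hcs hn
  obtain ⟨δ, hδ, h4⟩ := vtx_EE_open hV
  obtain ⟨v', h5, hA', hB'⟩ := perturb (by omega) v δ hδ
  obtain ⟨hV', h6⟩ := h4 v' h5
  obtain ⟨u, hA, hB, hVu, h7⟩ := induct hd hdn hA' hB' hV' h1 (by omega)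
  refine ⟨PPd u, ppd_polytope (by omega) hdn hA, ⟨0, ppd_cs u⟩,
    ppd_simplicial (by omega) hdn hA hB hVu, ppd_fzero (by omega) hdn hA hVu, ?_⟩
  apply le_antisymm
  · have h8 := edges_le (c := 0) (v := u) (by omega) (ppd_polytope (by omega) hdn hA) (ppd_cs u)
      (by simpa using ppd_inj hVu) (by simpa using (ppd_ext hVu).symm)
    rw [h7] at h8
    exact h8
  · have h8 := edges_ge (by omega) hdn hA hVu
    rw [h7] at h8
    exact h8

end Pool.Agent.Lib.MP_a3b162_co.NG
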