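import Pool.Agent.Lib.MP_a3b162_co.NG.Dual

/-!
MODULE ng2 (50 min).  Generic points.

`avoid`: finitely many hyperplanes do not cover a ball: each `{x | p.1 x = p.2}`, `p.1 ≠ 0`, is a null
set (`MeasureTheory.Measure.addHaar_affineSubspace`) or: by induction on the finite set (the
complement of a hyperplane is open and dense; `Dense.inter_of_isOpen_left`, finite intersections of
open dense sets are dense and open).
`add_point`: apply `avoid` to the finitely many pairs
 * `(χ_I, 0)`, one for every `I : Finset (Fin n)` with `I.card < d`: `χ_I ≠ 0` vanishes on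
   `span {v i | i ∈ I}` (a proper subspace: `Submodule.exists_le_ker_of_lt_top` or a variant);
 * `(φ, 1)` and `(φ, -1)`, `φ ∈ Phi v` (finite: `phi_finite`, nonzero: `phi_ne_zero`);
 * `(φ - ψ, 0)`, `φ ≠ ψ` in `Phi v`.
`GenA (add1 v x)`: `J` with `last ∈ J`, `J.card ≤ d`: `J = I.map castSucc ∪ {last}`, `I.card < d`,
`x ∉ span (v i : i ∈ I)` by `χ_I x ≠ 0`.  `GenB (add1 v x)`: if `last ∈ J` and `|φ| = 1` on `J`, let
`I` be the rest, `I.card ≤ d` by `hB`, and `I.card = d` would give `φ ∈ Phi v`, `|φ x| = 1`: excluded.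
`perturb`: induction on `n` with `add_point` (`add1_eta`).
-/

set_option autoImplicit false

namespace Pool.Agent.Lib.MP_a3b162_co.NG

open Pool.Agent.Lib.MP_a3b162_co

variable {d n : ℕ}

theorem ng2_dense (φ : (Fin d → ℝ) →ₗ[ℝ] ℝ) (c : ℝ) (h0 : φ ≠ 0) :
    Dense {x : Fin d → ℝ | φ x ≠ c} := by
  obtain ⟨u, hu⟩ : ∃ u, φ u ≠ 0 := by
    by_contra hcon
    push Not at hcon
    exact h0 (LinearMap.ext hcon)
  rw [Metric.dense_iff]
  intro x r hr
  by_cases hx : φ x = c
  · set t : ℝ := r / (2 * (‖u‖ + 1)) with ht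
    have hu1 : 0 < ‖u‖ + 1 := by positivity
    have ht0 : 0 < t := by positivity
    refine ⟨x + t • u, ?_, ?_⟩
    · rw [Metric.mem_ball, dist_eq_norm, add_sub_cancel_left, norm_smul, Real.norm_eq_abs, abs_of_pos ht0]
      have h1 : t * ‖u‖ ≤ t * (‖u‖ + 1) := by nlinarith
      have h2 : t * (‖u‖ + 1) = r / 2 := by
        rw [ht]; field_simp
      linarith
    · show φ (x + t • u) ≠ c
      rw [map_add, map_smul, smul_eq_mul, hx]
      intro h
      have : t * φ u = 0 := by linarith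
      rcases mul_eq_zero.1 this with h1 | h1
      · exact ht0.ne' h1
      · exact hu h1
  · exact ⟨x, Metric.mem_ball_self hr, hx⟩

theorem avoid (S : Set (((Fin d → ℝ) →ₗ[ℝ] ℝ) × ℝ)) (hS : S.Finite) (h0 : ∀ p ∈ S, p.1 ≠ 0)
    (x0 : Fin d → ℝ) (δ : ℝ) (hδ : 0 < δ) :
    ∃ x : Fin d → ℝ, ‖x - x0‖ < δ ∧ ∀ p ∈ S, p.1 x ≠ p.2 := by
  have h1 : Dense (⋂ p ∈ S, {x : Fin d → ℝ | p.1 x ≠ p.2}) := by
    refine dense_biInter_of_isOpen (f := fun p => {x : Fin d → ℝ | p.1 x ≠ p.2}) ?_ hS.countable ?_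
    · intro p _
      exact isOpen_ne_fun (LinearMap.continuous_of_finiteDimensional p.1) continuous_const
    · intro p hp
      exact ng2_dense p.1 p.2 (h0 p hp)
  rw [Metric.dense_iff] at h1
  obtain ⟨x, hx1, hx2⟩ := h1 x0 δ hδ
  refine ⟨x, ?_, fun p hp => ?_⟩
  · rwa [Metric.mem_ball, dist_eq_norm] at hx1
  · have := Set.mem_iInter₂.1 hx2 p hp
    exact this

/-- the indices of `J` different from the last one -/
def ng2_I (J : Finset (Fin (n + 1))) : Finset (Fin n) :=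
  Finset.univ.filter (fun i => i.castSucc ∈ J)

theorem ng2_not {J : Finset (Fin (n + 1))} (h : Fin.last n ∉ J) :
    J = (ng2_I J).map Fin.castSuccEmb := by
  ext k
  refine Fin.lastCases ?_ (fun k => ?_) k
  · constructor
    · intro h1; exact absurd h1 h
    · intro h1
      obtain ⟨i, _, hi⟩ := Finset.mem_map.1 h1
      exact absurd hi (Fin.castSucc_lt_last i).ne
  · constructor
    · intro h1
      exact Finset.mem_map.2 ⟨k, Finset.mem_filter.2 ⟨Finset.mem_univ _, h1⟩, rfl⟩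
    · intro h1
      obtain ⟨i, hi, hi2⟩ := Finset.mem_map.1 h1
      have : i = k := Fin.castSucc_injective n hi2
      subst this
      exact (Finset.mem_filter.1 hi).2

theorem ng2_ins {J : Finset (Fin (n + 1))} (h : Fin.last n ∈ J) :
    J = insert (Fin.last n) ((ng2_I J).map Fin.castSuccEmb) := by
  ext k
  refine Fin.lastCases ?_ (fun k => ?_) k
  · simp [h]
  · constructor
    · intro h1
      exact Finset.mem_insert_of_mem (Finset.mem_map.2 ⟨k, Finset.mem_filter.2 ⟨Finset.mem_univ _, h1⟩, rfl⟩)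
    · intro h1
      rcases Finset.mem_insert.1 h1 with h2 | h2
      · exact absurd h2 (Fin.castSucc_lt_last k).ne
      · obtain ⟨i, hi, hi2⟩ := Finset.mem_map.1 h2
        have : i = k := Fin.castSucc_injective n hi2
        subst this
        exact (Finset.mem_filter.1 hi).2

theorem ng2_card {J : Finset (Fin (n + 1))} (h : Fin.last n ∈ J) :
    J.card = (ng2_I J).card + 1 := by
  have h1 : Fin.last n ∉ (ng2_I J).map Fin.castSuccEmb := by
    intro h1
    obtain ⟨i, _, hi⟩ := Finset.mem_map.1 h1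
    exact absurd hi (Fin.castSucc_lt_last i).ne
  conv_lhs => rw [ng2_ins h]
  rw [Finset.card_insert_of_notMem h1, Finset.card_map]

theorem ng2_li_map {v : Fin n → (Fin d → ℝ)} (x : Fin d → ℝ) {I : Finset (Fin n)}
    (h : LinearIndependent ℝ (fun i : I => v i)) :
    LinearIndependent ℝ (fun i : (I.map Fin.castSuccEmb : Finset (Fin (n + 1))) => add1 v x i) := by
  let g : I → (I.map Fin.castSuccEmb : Finset (Fin (n + 1))) := fun i =>
    ⟨Fin.castSuccEmb (i : Fin n), Finset.mem_map_of_mem _ i.2⟩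
  have hg : Function.Bijective g := by
    constructor
    · intro i j hij
      apply Subtype.ext
      exact Fin.castSuccEmb.injective (congrArg Subtype.val hij)
    · rintro ⟨k, hk⟩
      obtain ⟨i, hi, rfl⟩ := Finset.mem_map.1 hk
      exact ⟨⟨i, hi⟩, rfl⟩
  rw [← linearIndependent_equiv (Equiv.ofBijective g hg)]
  have e : (fun i : (I.map Fin.castSuccEmb : Finset (Fin (n + 1))) => add1 v x i) ∘
      (Equiv.ofBijective g hg) = fun i : I => v i := by
    funext i
    simp [g]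
  rw [e]
  exact h

theorem ng2_chi (v : Fin n → (Fin d → ℝ)) (I : Finset (Fin n)) (hI : I.card < d) :
    ∃ χ : (Fin d → ℝ) →ₗ[ℝ] ℝ, χ ≠ 0 ∧ Submodule.span ℝ (v '' (I : Set (Fin n))) ≤ LinearMap.ker χ := by
  classical
  have h1 : Module.finrank ℝ (Submodule.span ℝ (v '' (I : Set (Fin n)))) ≤ I.card := by
    have h2 := finrank_span_finset_le_card (R := ℝ) (I.image v)
    rw [Finset.coe_image] at h2
    exact h2.trans Finset.card_image_le
  have h2 : Submodule.span ℝ (v '' (I : Set (Fin n))) < ⊤ := by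
    rw [lt_top_iff_ne_top]
    intro h
    rw [h, finrank_top] at h1
    simp at h1
    omega
  obtain ⟨f, hf, hle⟩ := Submodule.exists_le_ker_of_lt_top _ h2
  exact ⟨f, hf, hle⟩

theorem add_point (hd : 1 ≤ d) {v : Fin n → (Fin d → ℝ)} (hA : GenA v) (hB : GenB v)
    (x0 : Fin d → ℝ) (δ : ℝ) (hδ : 0 < δ) :
    ∃ x : Fin d → ℝ, ‖x - x0‖ < δ ∧ GenA (add1 v x) ∧ GenB (add1 v x) ∧ SG v x := by
  classical
  have hchi := ng2_chi v
  choose! χ hχ0 hχ using hchi
  set S1 : Set (((Fin d → ℝ) →ₗ[ℝ] ℝ) × ℝ) :=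
    (fun I => (χ I, (0 : ℝ))) '' {I : Finset (Fin n) | I.card < d} with hS1
  set S2 : Set (((Fin d → ℝ) →ₗ[ℝ] ℝ) × ℝ) := (fun φ => (φ, (1 : ℝ))) '' Phi v with hS2
  set S3 : Set (((Fin d → ℝ) →ₗ[ℝ] ℝ) × ℝ) := (fun φ => (φ, (-1 : ℝ))) '' Phi v with hS3
  set S4 : Set (((Fin d → ℝ) →ₗ[ℝ] ℝ) × ℝ) :=
    (fun p : ((Fin d → ℝ) →ₗ[ℝ] ℝ) × ((Fin d → ℝ) →ₗ[ℝ] ℝ) => (p.1 - p.2, (0 : ℝ))) ''
      {p | p ∈ Phi v ×ˢ Phi v ∧ p.1 ≠ p.2} with hS4
  have hfin : (S1 ∪ S2 ∪ S3 ∪ S4).Finite := by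
    have hP := phi_finite hA
    refine (((Set.toFinite _).image _).union (hP.image _)).union (hP.image _) |>.union ?_
    exact ((hP.prod hP).subset (fun p hp => hp.1)).image _
  have hne : ∀ p ∈ S1 ∪ S2 ∪ S3 ∪ S4, p.1 ≠ 0 := by
    rintro p (((⟨I, hI, rfl⟩ | ⟨φ, hφ, rfl⟩) | ⟨φ, hφ, rfl⟩) | ⟨q, ⟨_, hq⟩, rfl⟩)
    · exact hχ0 I hI
    · exact phi_ne_zero hd hφ
    · exact phi_ne_zero hd hφ
    · exact sub_ne_zero.2 hq
  obtain ⟨x, hx, hav⟩ := avoid _ hfin hne x0 δ hδ
  refine ⟨x, hx, ?_, ?_, ?_⟩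
  · intro J hJ
    by_cases hl : Fin.last n ∈ J
    · have hc := ng2_card hl
      have hI : (ng2_I J).card < d := by omega
      have h1 := ng2_li_map x (hA (ng2_I J) hI.le)
      have h2 : LinearIndepOn ℝ (add1 v x) (((ng2_I J).map Fin.castSuccEmb : Finset (Fin (n + 1))) : Set (Fin (n + 1))) := h1
      have h3 : add1 v x (Fin.last n) ∉ Submodule.span ℝ
          (add1 v x '' (((ng2_I J).map Fin.castSuccEmb : Finset (Fin (n + 1))) : Set (Fin (n + 1)))) := by
        have e : add1 v x '' (((ng2_I J).map Fin.castSuccEmb : Finset (Fin (n + 1))) : Set (Fin (n + 1))) =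
            v '' (ng2_I J : Set (Fin n)) := by
          rw [Finset.coe_map, ← Set.image_comp]
          congr 1
          funext i
          simp
        rw [e, add1_last]
        intro h
        have h4 := hχ (ng2_I J) hI h
        rw [LinearMap.mem_ker] at h4
        exact hav (χ (ng2_I J), 0) (Or.inl (Or.inl (Or.inl ⟨_, hI, rfl⟩))) h4
      have h4 := h2.insert h3
      have h5 : LinearIndepOn ℝ (add1 v x) (J : Set (Fin (n + 1))) := by
        have e : (J : Set (Fin (n + 1))) = insert (Fin.last n)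
            (((ng2_I J).map Fin.castSuccEmb : Finset (Fin (n + 1))) : Set (Fin (n + 1))) := by
          rw [← Finset.coe_insert, ← ng2_ins hl]
        rw [e]
        exact h4
      exact h5
    · have h1 := ng2_not hl
      have h2 : (ng2_I J).card ≤ d := by
        rw [h1, Finset.card_map] at hJ
        exact hJ
      have h3 := ng2_li_map x (hA (ng2_I J) h2)
      rw [← h1] at h3
      exact h3
  · intro J φ hφ
    have hI : ∀ i ∈ ng2_I J, |φ (v i)| = 1 := by
      intro i hi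
      have := hφ i.castSucc (Finset.mem_filter.1 hi).2
      rwa [add1_cast] at this
    have h1 := hB (ng2_I J) φ hI
    by_cases hl : Fin.last n ∈ J
    · have hc := ng2_card hl
      have hx1 := hφ _ hl
      rw [add1_last] at hx1
      have h2 : (ng2_I J).card ≠ d := by
        intro h
        have hPhi : φ ∈ Phi v := ⟨ng2_I J, h, hI⟩
        rcases eq_or_eq_neg_of_abs_eq hx1 with h3 | h3
        · exact hav (φ, 1) (Or.inl (Or.inl (Or.inr ⟨φ, hPhi, rfl⟩))) h3
        · exact hav (φ, -1) (Or.inl (Or.inr ⟨φ, hPhi, rfl⟩)) h3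
      omega
    · rw [ng2_not hl, Finset.card_map]
      exact h1
  · intro φ hφ ψ hψ hne' h
    refine hav (φ - ψ, 0) (Or.inr ⟨(φ, ψ), ⟨⟨hφ, hψ⟩, hne'⟩, rfl⟩) ?_
    show (φ - ψ) x = 0
    rw [LinearMap.sub_apply, h, sub_self]

theorem perturb (hd : 1 ≤ d) (v : Fin n → (Fin d → ℝ)) (δ : ℝ) (hδ : 0 < δ) :
    ∃ v' : Fin n → (Fin d → ℝ), (∀ i, ‖v' i - v i‖ < δ) ∧ GenA v' ∧ GenB v' := by
  induction n with
  | zero =>
    refine ⟨v, fun i => i.elim0, fun I _ => ?_, fun I φ _ => ?_⟩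
    · have : IsEmpty I := ⟨fun i => i.1.elim0⟩
      exact linearIndependent_empty_type
    · have : I = ∅ := Finset.eq_empty_of_forall_notMem (fun i => i.elim0)
      rw [this]
      simp
  | succ n ih =>
    obtain ⟨v', h1, h2, h3⟩ := ih (fun k => v k.castSucc)
    obtain ⟨x, hx, h4, h5, _⟩ := add_point hd h2 h3 (v (Fin.last n)) δ hδ
    refine ⟨add1 v' x, ?_, h4, h5⟩
    intro i
    refine Fin.lastCases ?_ (fun i => ?_) i
    · rw [add1_last]; exact hx
    · rw [add1_cast]; exact h1 i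

theorem perturb_sg (hd : 1 ≤ d) (u : Fin (n + 1) → (Fin d → ℝ)) (δ : ℝ) (hδ : 0 < δ) :
    ∃ (v : Fin n → (Fin d → ℝ)) (x : Fin d → ℝ), (∀ i, ‖add1 v x i - u i‖ < δ) ∧
      GenA (add1 v x) ∧ GenB (add1 v x) ∧ SG v x := by
  obtain ⟨v', h1, h2, h3⟩ := perturb hd (fun k => u k.castSucc) δ hδ
  obtain ⟨x, hx, h4, h5, h6⟩ := add_point hd h2 h3 (u (Fin.last n)) δ hδ
  refine ⟨v', x, ?_, h4, h5, h6⟩
  intro i
  refine Fin.lastCases ?_ (fun i => ?_) i
  · rw [add1_last]; exact hx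
  · rw [add1_cast]; exact h1 i

end Pool.Agent.Lib.MP_a3b162_co.NG
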