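import Pool.Agent.Lib.MP_a3b162_co.NG.Basic

/-!
MODULE ng1 (30 min).  Linear algebra for families in general position.

`exists_dual`: `v i`, `i ∈ I`, are linearly independent; extend to a basis
(`LinearIndependent.extend`/`Module.Basis`), or: the map `φ ↦ (φ (v i))_{i∈I}` is onto;
e.g. `(hv I hI).exists_dual...`, `Basis.constr` of `Basis.extend`.
`ext_on`: `d` independent vectors of `ℝ^d` span (`LinearIndependent.span_eq_top_of_card_eq_finrank'`).
`phi_finite`: `φ ∈ Phi v` is determined by `I` (finitely many) and the values `φ (v i) ∈ {1,-1}`,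
`i ∈ I` (`ext_on`): inject into `Finset (Fin n) × (Fin n → Bool)`.
-/

set_option autoImplicit false

namespace Pool.Agent.Lib.MP_a3b162_co.NG

open Pool.Agent.Lib.MP_a3b162_co

variable {d n : ℕ}

theorem exists_dual {v : Fin n → (Fin d → ℝ)} (hv : GenA v) {I : Finset (Fin n)}
    (hI : I.card ≤ d) (a : Fin n → ℝ) :
    ∃ φ : (Fin d → ℝ) →ₗ[ℝ] ℝ, ∀ i ∈ I, φ (v i) = a i := by
  classical
  have h1 := hv I hI
  have h2 : LinearMap.ker (Fintype.linearCombination ℝ (fun i : I => v i)) = ⊥ := by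
    rw [LinearMap.ker_eq_bot]
    exact linearIndependent_iff_injective_fintypeLinearCombination.1 h1
  obtain ⟨g, hg⟩ := LinearMap.exists_leftInverse_of_injective _ h2
  refine ⟨(Fintype.linearCombination ℝ (fun i : I => a i)) ∘ₗ g, fun i hi => ?_⟩
  have h3 : Fintype.linearCombination ℝ (fun i : I => v i) (Pi.single ⟨i, hi⟩ 1) = v i := by
    rw [Fintype.linearCombination_apply_single, one_smul]
  have h4 : g (v i) = Pi.single ⟨i, hi⟩ 1 := by
    rw [← h3]
    exact LinearMap.congr_fun hg _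
  rw [LinearMap.comp_apply, h4, Fintype.linearCombination_apply_single, one_smul]

theorem genA_span {v : Fin n → (Fin d → ℝ)} (hv : GenA v) (hn : d ≤ n) :
    Submodule.span ℝ (Set.range v) = ⊤ := by
  have h2 := hv (Finset.univ.map (Fin.castLEEmb hn)) (by simp)
  have h3 := h2.span_eq_top_of_card_eq_finrank' (by
    rw [Fintype.card_coe, Finset.card_map]
    simp)
  rw [eq_top_iff, ← h3]
  apply Submodule.span_mono
  rintro _ ⟨i, rfl⟩
  exact ⟨_, rfl⟩

theorem ext_on {v : Fin n → (Fin d → ℝ)} (hv : GenA v) {I : Finset (Fin n)}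
    (hI : I.card = d) {φ ψ : (Fin d → ℝ) →ₗ[ℝ] ℝ} (h : ∀ i ∈ I, φ (v i) = ψ (v i)) : φ = ψ := by
  have h2 := hv I hI.le
  have h3 := h2.span_eq_top_of_card_eq_finrank' (by
    rw [Fintype.card_coe, hI]
    simp)
  apply LinearMap.ext_on h3
  rintro _ ⟨i, rfl⟩
  exact h i i.2

theorem phi_finite {v : Fin n → (Fin d → ℝ)} (hv : GenA v) : (Phi v).Finite := by
  classical
  have h1 : ∀ φ : (Fin d → ℝ) →ₗ[ℝ] ℝ, φ ∈ Phi v → ∃ q : Finset (Fin n) × (Fin n → Bool),
      q.1.card = d ∧ ∀ i ∈ q.1, φ (v i) = sg (q.2 i) := by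
    rintro φ ⟨I, hI, hφ⟩
    refine ⟨(I, fun i => decide (φ (v i) = 1)), hI, fun i hi => ?_⟩
    rcases eq_or_eq_neg_of_abs_eq (hφ i hi) with h | h
    · simp [h]
    · have h5 : φ (v i) ≠ 1 := by rw [h]; norm_num
      simp only [h5, decide_false, sg_false]
      exact h
  choose! g hg1 hg2 using h1
  apply Set.Finite.of_finite_image (f := g) (Set.toFinite _)
  intro φ hφ ψ hψ hq
  apply ext_on hv (hg1 φ hφ)
  intro i hi
  rw [hg2 φ hφ i hi, hg2 ψ hψ i (by rw [← hq]; exact hi), hq]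

theorem phi_neg {v : Fin n → (Fin d → ℝ)} {φ : (Fin d → ℝ) →ₗ[ℝ] ℝ} (h : φ ∈ Phi v) :
    -φ ∈ Phi v := by
  obtain ⟨I, hI, hφ⟩ := h
  exact ⟨I, hI, fun i hi => by rw [LinearMap.neg_apply, abs_neg]; exact hφ i hi⟩

theorem phi_ne_zero (hd : 1 ≤ d) {v : Fin n → (Fin d → ℝ)} {φ : (Fin d → ℝ) →ₗ[ℝ] ℝ}
    (h : φ ∈ Phi v) : φ ≠ 0 := by
  obtain ⟨I, hI, hφ⟩ := h
  rintro rfl
  obtain ⟨i, hi⟩ : I.Nonempty := by
    rw [← Finset.card_pos, hI]
    omega
  have := hφ i hi
  simp at this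

/-- a dependency supported on at most `d` indices is trivial -/
theorem dep_zero {v : Fin n → (Fin d → ℝ)} (hv : GenA v) {I : Finset (Fin n)} (hI : I.card ≤ d)
    {c : Fin n → ℝ} (hc : ∑ k, c k • v k = 0) (hs : ∀ k, k ∉ I → c k = 0) : ∀ k, c k = 0 := by
  classical
  have h1 := hv I hI
  rw [Fintype.linearIndependent_iff] at h1
  have h2 : ∑ k ∈ I, c k • v k = 0 := by
    rw [← hc]
    refine Finset.sum_subset (Finset.subset_univ _) fun k _ hk => ?_
    rw [hs k hk, zero_smul]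
  have h3 := h1 (fun k => c k) (by rw [Finset.sum_coe_sort I (fun k => c k • v k)]; exact h2)
  intro k
  by_cases hk : k ∈ I
  · exact h3 ⟨k, hk⟩
  · exact hs k hk

end Pool.Agent.Lib.MP_a3b162_co.NG
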