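import Pool.Agent.Lib.MP_a3b162_co.NG.Basic
import Pool.Agent.Lib.MP_a3b162_co.GB

/-!
MODULE ng6 (50 min).  Every edge of a centrally symmetric polytope comes from a triple.

`edges_le`: let `F` be a nonempty exposed face with `finrank (vectorSpan F) = 1`.  `F ≠ P` (the vector
span of `P` is `⊤`, of dimension `d ≥ 2`).  `W = {q | c + sg q.2 • v q.1 ∈ F}` has exactly two elements
(`edge_two`, `hi`, `hr`), and `Expo v W` (`face_expo`), with functional `φ`, `sg q.2 * φ (v q.1) = 1` on
`W` and `< 1` outside.  The two elements of `W` have different indices (`sg b * φ (v i) = 1` for both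
signs is impossible); let `i < j` be the indices, `W = {(i,a),(j,e)}`.  Put `b = (a == e)`
(`sg b = sg a * sg e`); `sg a • φ` is the functional for `Pres v i j b`.  Map `F ↦ ((i,j,b),a)`: it is
injective, since `F` is the hull of `F ∩ P.extremePoints` (`face_hull`), which is determined by `W`.
Hence `f 1 P ≤ ({t | t.1 < t.2.1 ∧ Pres ..} ×ˢ univ Bool).ncard = 2 * EE v`
(`Set.ncard_le_ncard_of_injOn` with a function defined by choice, or show that the set of these `F`
is contained in the image of the finite set `{t | ...} ×ˢ univ` under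
`((i,j,b),a) ↦ convexHull {c + sg a • v i, c + sg (a == b) • v j}` and use `Set.ncard_le_ncard` and
`Set.ncard_image_le`: this is easier).
-/

set_option autoImplicit false

namespace Pool.Agent.Lib.MP_a3b162_co.NG

open Pool.Agent.Lib.MP_a3b162_co

variable {d n : ℕ}

/-- the hull of two signed vertices -/
def ng6_g (c : Fin d → ℝ) (v : Fin n → (Fin d → ℝ)) (p : (Fin n × Fin n × Bool) × Bool) :
    Set (Fin d → ℝ) :=
  convexHull ℝ {c + sg p.2 • v p.1.1, c + sg (p.2 == p.1.2.2) • v p.1.2.1}

theorem ng6_sg (a e : Bool) : sg a * sg e = sg (a == e) := by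
  cases a <;> cases e <;> norm_num

theorem ng6_bool (a e : Bool) : (a == (a == e)) = e := by
  cases a <;> cases e <;> rfl

theorem ng6_pair {v : Fin n → (Fin d → ℝ)} {W : Finset (Fin n × Bool)} (hE : Expo v W)
    (h2 : W.card = 2) : ∃ (i j : Fin n) (a e : Bool), i < j ∧ W = {(i, a), (j, e)} ∧
      Pres v i j (a == e) := by
  classical
  obtain ⟨φ, hφ⟩ := hE
  have hval : ∀ q ∈ W, φ (v q.1) = sg q.2 := by
    intro q hq
    have h2 := (hφ q).1 hq
    have h3 := sg_mul_self q.2
    calc φ (v q.1) = sg q.2 * (sg q.2 * φ (v q.1)) := by rw [← mul_assoc, h3, one_mul]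
      _ = sg q.2 := by rw [h2, mul_one]
  have key : ∀ (i j : Fin n) (a e : Bool), i < j → W = {(i, a), (j, e)} → Pres v i j (a == e) := by
    intro i j a e hij hW
    have hi : φ (v i) = sg a := hval (i, a) (by rw [hW]; simp)
    have hj : φ (v j) = sg e := hval (j, e) (by rw [hW]; simp)
    refine ⟨sg a • φ, ?_, ?_, fun k hk1 hk2 => ?_⟩
    · rw [LinearMap.smul_apply, hi, smul_eq_mul, sg_mul_self]
    · rw [LinearMap.smul_apply, hj, smul_eq_mul, ng6_sg]
    · rw [LinearMap.smul_apply, smul_eq_mul, abs_mul, abs_sg, one_mul]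
      have hk : ∀ b : Bool, (k, b) ∉ W := by
        intro b hb
        rw [hW] at hb
        simp only [Finset.mem_insert, Finset.mem_singleton, Prod.mk.injEq] at hb
        rcases hb with h | h
        · exact hk1 h.1
        · exact hk2 h.1
      have h3 := (hφ (k, true)).2 (hk true)
      have h4 := (hφ (k, false)).2 (hk false)
      simp only [sg_true, sg_false, one_mul, neg_mul] at h3 h4
      rw [abs_lt]
      constructor <;> linarith
  obtain ⟨q, r, hqr, hW⟩ := Finset.card_eq_two.1 h2
  have hne : q.1 ≠ r.1 := by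
    intro h
    have h3 := hval q (by rw [hW]; simp)
    have h4 := hval r (by rw [hW]; simp)
    rw [h, h4] at h3
    have h5 : q.2 = r.2 := by
      revert h3
      cases q.2 <;> cases r.2 <;> norm_num
    exact hqr (Prod.ext h h5)
  rcases lt_or_gt_of_ne hne with h | h
  · exact ⟨q.1, r.1, q.2, r.2, h, hW, key _ _ _ _ h hW⟩
  · have hW' : W = {(r.1, r.2), (q.1, q.2)} := by rw [hW, Finset.pair_comm]
    exact ⟨r.1, q.1, r.2, q.2, h, hW', key _ _ _ _ h hW'⟩

theorem edges_le (hd : 2 ≤ d) {P : Set (Fin d → ℝ)} (hP : IsPolytope P) {c : Fin d → ℝ}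
    (hc : ∀ x, c + x ∈ P → c - x ∈ P) {v : Fin n → (Fin d → ℝ)}
    (hi : Function.Injective (fun q : Fin n × Bool => c + sg q.2 • v q.1))
    (hr : Set.range (fun q : Fin n × Bool => c + sg q.2 • v q.1) = P.extremePoints ℝ) :
    f 1 P ≤ 2 * EE v := by
  classical
  have hPtop : Module.finrank ℝ (vectorSpan ℝ P) = d := by
    have h1 : vectorSpan ℝ P = ⊤ := by
      have h2 := congrArg AffineSubspace.direction hP.2
      rwa [direction_affineSpan, AffineSubspace.direction_top] at h2
    rw [h1, finrank_top]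
    simp
  set T : Set (Fin n × Fin n × Bool) := {t | t.1 < t.2.1 ∧ Pres v t.1 t.2.1 t.2.2} with hT
  have hsub : {F : Set (Fin d → ℝ) | F.Nonempty ∧ IsExposed ℝ P F ∧
      Module.finrank ℝ (vectorSpan ℝ F) = 1} ⊆ ng6_g c v '' (T ×ˢ (Set.univ : Set Bool)) := by
    rintro F ⟨hne, hF, hdim⟩
    have hFP : F ≠ P := by
      rintro rfl
      rw [hPtop] at hdim
      omega
    set W : Finset (Fin n × Bool) := Finset.univ.filter (fun q => c + sg q.2 • v q.1 ∈ F) with hWdef
    have hW : ∀ q, q ∈ W ↔ c + sg q.2 • v q.1 ∈ F := by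
      intro q
      rw [hWdef, Finset.mem_filter]
      exact ⟨fun h => h.2, fun h => ⟨Finset.mem_univ _, h⟩⟩
    have hE := face_expo hP hc v hr hF hne hFP W hW
    have himg : F ∩ P.extremePoints ℝ =
        (fun q : Fin n × Bool => c + sg q.2 • v q.1) '' (W : Set (Fin n × Bool)) := by
      rw [← hr]
      ext y
      constructor
      · rintro ⟨hy, q, rfl⟩
        exact ⟨q, (hW q).2 hy, rfl⟩
      · rintro ⟨q, hq, rfl⟩
        exact ⟨(hW q).1 hq, q, rfl⟩
    have hcard : W.card = 2 := by
      have h1 := edge_two hP hF hne hdim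
      rw [himg, Set.ncard_image_of_injective _ hi, Set.ncard_coe_finset] at h1
      exact h1
    obtain ⟨i, j, a, e, hij, hWe, hpres⟩ := ng6_pair hE hcard
    refine ⟨((i, j, (a == e)), a), ⟨⟨hij, hpres⟩, Set.mem_univ _⟩, ?_⟩
    unfold ng6_g
    simp only [ng6_bool]
    rw [← face_hull hP hF hne, himg, hWe]
    congr 1
    rw [Finset.coe_pair, Set.image_pair]
  have h1 : f 1 P ≤ (ng6_g c v '' (T ×ˢ (Set.univ : Set Bool))).ncard :=
    Set.ncard_le_ncard hsub (Set.toFinite _)
  have h2 : (ng6_g c v '' (T ×ˢ (Set.univ : Set Bool))).ncard ≤ (T ×ˢ (Set.univ : Set Bool)).ncard :=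
    Set.ncard_image_le (Set.toFinite _)
  have h3 : (T ×ˢ (Set.univ : Set Bool)).ncard = T.ncard * 2 := by
    rw [Set.ncard_prod, Set.ncard_univ]
    simp
  have h4 : T.ncard = EE v := rfl
  omega

end Pool.Agent.Lib.MP_a3b162_co.NG
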