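import Pool.Agent.Lib.MP_a3b162_co.NG.Dual

/-!
MODULE ng10 (45 min).  Weak presence is a closed condition.

Let `K = {φ : (Fin d → ℝ) →ₗ[ℝ] ℝ | ∀ k, |φ (v k)| ≤ 1}`; to have a topology write
`φ = ∑ a_c • proj c` with `a : Fin d → ℝ` (`φ y = ∑ c, a c * y c = a ⬝ᵥ y`):
`K' = {a | ∀ k, |a ⬝ᵥ v k| ≤ 1}` is closed, and bounded, because the `v k` span
(`genA_span`): the map `a ↦ (a ⬝ᵥ v k)_k` is linear and injective, hence has a lower bound
`c ‖a‖ ≤ ‖...‖` (`LinearMap.exists_antilipschitzWith` or by expressing the standard basis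
`Pi.single c 1 = ∑ λ k • v k`, `|a c| ≤ ∑ |λ k|`).  So `K'` is compact.
`{s | WPres (add1 v (s • x)) i j b}` is the projection to the first factor of the closed subset
`{(s,a) | a ∈ K', a ⬝ᵥ u i = 1, a ⬝ᵥ u j = sg b, |a ⬝ᵥ (s • x)| ≤ 1}` of `ℝ × K'`
(`u k = add1 v (s • x) k` depends continuously on `s`); projections along a compact factor are closed
maps (`isClosedMap_fst_of_compactSpace`, or a sequence argument with
`IsCompact.tendsto_subseq`).
-/

set_option autoImplicit false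

namespace Pool.Agent.Lib.MP_a3b162_co.NG

open Pool.Agent.Lib.MP_a3b162_co

variable {d n : ℕ}

/-- the functional with coefficients `a` -/
theorem WClosed_coeff (φ : (Fin d → ℝ) →ₗ[ℝ] ℝ) (y : Fin d → ℝ) :
    φ y = (fun c => φ (Pi.single c 1)) ⬝ᵥ y := by
  have h1 : y = ∑ c, y c • (Pi.single c (1 : ℝ) : Fin d → ℝ) := by
    funext c
    simp [Finset.sum_apply, Pi.single_apply]
  conv_lhs => rw [h1]
  rw [map_sum]
  simp only [map_smul, smul_eq_mul, dotProduct]
  exact Finset.sum_congr rfl fun c _ => mul_comm _ _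

theorem WClosed_compact (hn : d ≤ n) {v : Fin n → (Fin d → ℝ)} (hA : GenA v) :
    IsCompact {a : Fin d → ℝ | ∀ k, |a ⬝ᵥ v k| ≤ 1} := by
  have hcont : ∀ y : Fin d → ℝ, Continuous fun a : Fin d → ℝ => a ⬝ᵥ y := fun y => by
    simp only [dotProduct]
    exact continuous_finsetSum _ fun c _ => (continuous_apply c).mul continuous_const
  apply Metric.isCompact_of_isClosed_isBounded
  · have h1 : {a : Fin d → ℝ | ∀ k, |a ⬝ᵥ v k| ≤ 1} =
        ⋂ k, {a : Fin d → ℝ | |a ⬝ᵥ v k| ≤ 1} := by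
      ext a
      simp
    rw [h1]
    exact isClosed_iInter fun k => isClosed_le (hcont _).abs continuous_const
  · have h2 : ∀ c : Fin d, ∃ w : Fin n → ℝ, ∑ k, w k • v k = Pi.single c 1 := by
      intro c
      have h3 : (Pi.single c 1 : Fin d → ℝ) ∈ Submodule.span ℝ (Set.range v) := by
        rw [genA_span hA hn]
        trivial
      rwa [Submodule.mem_span_range_iff_exists_fun] at h3
    choose w hw using h2
    rw [isBounded_iff_forall_norm_le]
    refine ⟨∑ c, ∑ k, |w c k|, fun a ha => ?_⟩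
    have h0 : 0 ≤ ∑ c, ∑ k, |w c k| :=
      Finset.sum_nonneg fun c _ => Finset.sum_nonneg fun k _ => abs_nonneg _
    rw [pi_norm_le_iff_of_nonneg h0]
    intro c
    have h4 : a c = ∑ k, w c k * (a ⬝ᵥ v k) := by
      have h5 : a c = a ⬝ᵥ (Pi.single c 1 : Fin d → ℝ) := by simp
      rw [h5, ← hw c, dotProduct_sum]
      refine Finset.sum_congr rfl fun k _ => ?_
      rw [dotProduct_smul, smul_eq_mul]
    rw [Real.norm_eq_abs, h4]
    calc |∑ k, w c k * (a ⬝ᵥ v k)| ≤ ∑ k, |w c k * (a ⬝ᵥ v k)| := Finset.abs_sum_le_sum_abs _ _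
      _ ≤ ∑ k, |w c k| := by
          refine Finset.sum_le_sum fun k _ => ?_
          rw [abs_mul]
          exact mul_le_of_le_one_right (abs_nonneg _) (ha k)
      _ ≤ ∑ c, ∑ k, |w c k| :=
          Finset.single_le_sum (f := fun c => ∑ k, |w c k|)
            (fun c _ => Finset.sum_nonneg fun k _ => abs_nonneg _) (Finset.mem_univ c)

theorem WClosed_iff {v : Fin n → (Fin d → ℝ)} {y : Fin d → ℝ}
    {i j : Fin (n + 1)} {b : Bool} :
    WPres (add1 v y) i j b ↔ ∃ a : Fin d → ℝ, (∀ k, |a ⬝ᵥ v k| ≤ 1) ∧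
      a ⬝ᵥ add1 v y i = 1 ∧ a ⬝ᵥ add1 v y j = sg b ∧ |a ⬝ᵥ y| ≤ 1 := by
  constructor
  · rintro ⟨φ, h1, h2, h3⟩
    refine ⟨fun c => φ (Pi.single c 1), fun k => ?_, ?_, ?_, ?_⟩
    · rw [← WClosed_coeff]
      have := h3 k.castSucc
      rwa [add1_cast] at this
    · rw [← WClosed_coeff]
      exact h1
    · rw [← WClosed_coeff]
      exact h2
    · rw [← WClosed_coeff]
      have := h3 (Fin.last n)
      rwa [add1_last] at this
  · rintro ⟨a, h1, h2, h3, h4⟩
    refine ⟨{ toFun := fun z => a ⬝ᵥ z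
              map_add' := fun y z => dotProduct_add a y z
              map_smul' := fun r z => by simp }, h2, h3, fun k => ?_⟩
    show |a ⬝ᵥ add1 v y k| ≤ 1
    rcases Fin.eq_castSucc_or_eq_last k with ⟨k', rfl⟩ | rfl
    · rw [add1_cast]
      exact h1 k'
    · rw [add1_last]
      exact h4

theorem wpres_closed (hn : d ≤ n) {v : Fin n → (Fin d → ℝ)} (hA : GenA v) (x : Fin d → ℝ)
    (i j : Fin (n + 1)) (b : Bool) :
    IsClosed {s : ℝ | WPres (add1 v (s • x)) i j b} := by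
  set K : Set (Fin d → ℝ) := {a : Fin d → ℝ | ∀ k, |a ⬝ᵥ v k| ≤ 1} with hK
  haveI : CompactSpace K := isCompact_iff_compactSpace.1 (WClosed_compact hn hA)
  have hu : ∀ k : Fin (n + 1), Continuous fun p : ℝ × K => (p.2 : Fin d → ℝ) ⬝ᵥ
      add1 v (p.1 • x) k := by
    intro k
    simp only [dotProduct]
    refine continuous_finsetSum _ fun c _ => ?_
    refine ((continuous_apply c).comp (continuous_subtype_val.comp continuous_snd)).mul ?_
    rcases Fin.eq_castSucc_or_eq_last k with ⟨k', rfl⟩ | rfl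
    · simp only [add1_cast]
      exact continuous_const
    · simp only [add1_last, Pi.smul_apply, smul_eq_mul]
      exact continuous_fst.mul continuous_const
  have hC : IsClosed {p : ℝ × K | (p.2 : Fin d → ℝ) ⬝ᵥ add1 v (p.1 • x) i = 1 ∧
      (p.2 : Fin d → ℝ) ⬝ᵥ add1 v (p.1 • x) j = sg b ∧
      |(p.2 : Fin d → ℝ) ⬝ᵥ add1 v (p.1 • x) (Fin.last n)| ≤ 1} :=
    (isClosed_eq (hu i) continuous_const).inter
      ((isClosed_eq (hu j) continuous_const).inter (isClosed_le (hu _).abs continuous_const))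
  have h := isClosedMap_fst_of_compactSpace _ hC
  convert h using 1
  ext s
  simp only [Set.mem_ofPred_eq, Set.mem_image, Prod.exists, exists_and_right, exists_eq_right]
  rw [WClosed_iff]
  constructor
  · rintro ⟨a, h1, h2, h3, h4⟩
    exact ⟨⟨a, h1⟩, h2, h3, by rw [add1_last]; exact h4⟩
  · rintro ⟨⟨a, h1⟩, h2, h3, h4⟩
    rw [add1_last] at h4
    exact ⟨a, h1, h2, h3, h4⟩

end Pool.Agent.Lib.MP_a3b162_co.NG
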