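import Pool.Agent.Lib.MP_a3b162_co.NG.Facet
import Pool.Agent.Lib.MP_a3b162_co.NG.WClosed

/-!
MODULE ng15.  Just beyond the facet: the new edges.
-/

set_option autoImplicit false

namespace Pool.Agent.Lib.MP_a3b162_co.NG

open Pool.Agent.Lib.MP_a3b162_co

variable {d n : ℕ}

theorem EntryB_apply {v : Fin n → (Fin d → ℝ)} {x : Fin d → ℝ}
    {φ : (Fin d → ℝ) →ₗ[ℝ] ℝ} {I : Finset (Fin n)} {c : Fin n → ℝ} (h : FacetAt v x φ I c)
    (ψ : (Fin d → ℝ) →ₗ[ℝ] ℝ) : ψ x = ∑ k ∈ I, c k * (φ (v k) * ψ (v k)) := by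
  conv_lhs => rw [h.eq]
  rw [map_sum]
  refine Finset.sum_congr rfl fun k _ => ?_
  rw [map_smul, smul_eq_mul]
  ring

theorem EntryB_yes (hd : 3 ≤ d) {v : Fin n → (Fin d → ℝ)} (hA : GenA v)
    {x : Fin d → ℝ} {φ : (Fin d → ℝ) →ₗ[ℝ] ℝ} {I : Finset (Fin n)} {c : Fin n → ℝ}
    (h : FacetAt v x φ I c) {i : Fin n} {b : Bool} (hi : i ∈ I) (hb : φ (v i) = sg b) :
    ∀ᶠ s in nhdsWithin (φ x)⁻¹ (Set.Ioi (φ x)⁻¹),
      Pres (add1 v (s • x)) i.castSucc (Fin.last n) b := by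
  classical
  have hpos : 0 < φ x := h.posx (by omega)
  obtain ⟨ψ, hψ⟩ := exists_dual hA h.card.le (fun k => if k = i then 0 else φ (v k))
  have hψi : ψ (v i) = 0 := by
    rw [hψ i hi]
    exact if_pos rfl
  have hψk : ∀ k ∈ I, k ≠ i → ψ (v k) = φ (v k) := by
    intro k hk hki
    rw [hψ k hk]
    exact if_neg hki
  have hψx : 0 < ψ x := by
    rw [EntryB_apply h ψ]
    have h1 : ∃ k ∈ I, k ≠ i := by
      by_contra hcon
      push Not at hcon
      have h2 : I ⊆ {i} := fun k hk => Finset.mem_singleton.2 (hcon k hk)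
      have h3 := Finset.card_le_card h2
      rw [Finset.card_singleton, h.card] at h3
      omega
    obtain ⟨k0, hk0, hk0i⟩ := h1
    refine Finset.sum_pos' (fun k hk => ?_) ⟨k0, hk0, ?_⟩
    · by_cases hki : k = i
      · rw [hki, hψi, mul_zero, mul_zero]
      · rw [hψk k hk hki, h.sq hk, mul_one]
        exact (h.pos k hk).le
    · rw [hψk k0 hk0 hk0i, h.sq hk0, mul_one]
      exact h.pos k0 hk0
  set s₀ : ℝ := (φ x)⁻¹ with hs₀
  have hs₀pos : 0 < s₀ := inv_pos.2 hpos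
  let θ : ℝ → ℝ := fun s => (φ x - s⁻¹) / ψ x
  have hθc : ContinuousAt θ s₀ :=
    ((continuousAt_const).sub (continuousAt_inv₀ hs₀pos.ne')).div_const _
  have hθ0 : θ s₀ = 0 := by
    simp only [θ, hs₀, inv_inv, sub_self, zero_div]
  have e1 : ∀ᶠ s in nhds s₀, θ s < 1 := by
    refine hθc.eventually_lt continuousAt_const ?_
    rw [hθ0]
    exact zero_lt_one
  have e2 : ∀ᶠ s in nhds s₀, ∀ k, k ∉ I → |φ (v k) - θ s * ψ (v k)| < 1 := by
    refine Filter.eventually_all.2 fun k => ?_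
    by_cases hk : k ∈ I
    · exact Filter.Eventually.of_forall fun s hk2 => absurd hk hk2
    · have h5 : ContinuousAt (fun s => |φ (v k) - θ s * ψ (v k)|) s₀ :=
        (continuousAt_const.sub (hθc.mul continuousAt_const)).abs
      have h6 : |φ (v k) - θ s₀ * ψ (v k)| < 1 := by
        rw [hθ0, zero_mul, sub_zero]
        exact h.lt k hk
      filter_upwards [h5.eventually_lt continuousAt_const h6] with s hs _
      exact hs
  filter_upwards [nhdsWithin_le_nhds e1, nhdsWithin_le_nhds e2, self_mem_nhdsWithin]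
    with s h7 h8 h9
  have hs : s₀ < s := h9
  have hs0 : 0 < s := hs₀pos.trans hs
  have h10 : 0 < θ s := by
    apply div_pos _ hψx
    have : s⁻¹ < s₀⁻¹ := inv_strictAnti₀ hs₀pos hs
    rw [hs₀, inv_inv] at this
    linarith
  set χ : (Fin d → ℝ) →ₗ[ℝ] ℝ := φ - θ s • ψ with hχ
  have hχa : ∀ y, χ y = φ y - θ s * ψ y := fun y => rfl
  have h11 : χ (s • x) = 1 := by
    rw [hχa, map_smul, map_smul, smul_eq_mul, smul_eq_mul]
    simp only [θ]
    field_simp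
    ring
  refine ⟨sg b • χ, ?_, ?_, fun k hk1 hk2 => ?_⟩
  · rw [add1_cast, LinearMap.smul_apply, smul_eq_mul, hχa, hψi, mul_zero, sub_zero, hb,
      sg_mul_self]
  · rw [add1_last, LinearMap.smul_apply, h11, smul_eq_mul, mul_one]
  · rcases Fin.eq_castSucc_or_eq_last k with ⟨k, rfl⟩ | rfl
    · rw [add1_cast, LinearMap.smul_apply, smul_eq_mul, abs_mul, abs_sg, one_mul, hχa]
      by_cases hk : k ∈ I
      · have hki : k ≠ i := fun e => hk1 (congrArg _ e)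
        rw [hψk k hk hki, show φ (v k) - θ s * φ (v k) = (1 - θ s) * φ (v k) by ring, abs_mul,
          h.one k hk, mul_one, abs_lt]
        constructor <;> linarith
      · exact h8 k hk
    · exact absurd rfl hk2

theorem EntryB_no (hd : 3 ≤ d) {v : Fin n → (Fin d → ℝ)} (hA : GenA v)
    {x : Fin d → ℝ} {φ : (Fin d → ℝ) →ₗ[ℝ] ℝ} {I : Finset (Fin n)} {c : Fin n → ℝ}
    (h : FacetAt v x φ I c) {i : Fin n} {b : Bool} (hib : ¬ (i ∈ I ∧ φ (v i) = sg b)) :
    ¬ WPres (add1 v ((φ x)⁻¹ • x)) i.castSucc (Fin.last n) b := by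
  rintro ⟨ψ, h1, h2, h3⟩
  have hpos : 0 < φ x := h.posx (by omega)
  rw [add1_cast] at h1
  rw [add1_last, map_smul, smul_eq_mul] at h2
  have h4 : ∀ k, |sg b * ψ (v k)| ≤ 1 := by
    intro k
    have := h3 k.castSucc
    rw [add1_cast] at this
    rw [abs_mul, abs_sg, one_mul]
    exact this
  have h5 : sg b * ψ x = φ x := by
    have e1 : ψ x = sg b * φ x := by
      field_simp at h2
      linarith
    rw [e1, ← mul_assoc, sg_mul_self, one_mul]
  set ψ' : (Fin d → ℝ) →ₗ[ℝ] ℝ := sg b • ψ with hψ'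
  have hψa : ∀ y, ψ' y = sg b * ψ y := fun y => rfl
  have h6 : ∑ k ∈ I, c k * (φ (v k) * ψ' (v k)) = ∑ k ∈ I, c k := by
    rw [← EntryB_apply h ψ', ← h.sum, hψa, h5]
  have h7 : ∀ k ∈ I, c k * (φ (v k) * ψ' (v k)) ≤ c k := by
    intro k hk
    have e2 : φ (v k) * ψ' (v k) ≤ 1 := by
      refine (le_abs_self _).trans ?_
      rw [abs_mul, h.one k hk, one_mul, hψa]
      exact h4 k
    calc c k * (φ (v k) * ψ' (v k)) ≤ c k * 1 := mul_le_mul_of_nonneg_left e2 (h.pos k hk).le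
      _ = c k := mul_one _
  have h8 := (Finset.sum_eq_sum_iff_of_le h7).1 h6
  have h9 : ψ' = φ := by
    refine ext_on hA h.card fun k hk => ?_
    have e3 := h8 k hk
    have e4 : φ (v k) * ψ' (v k) = 1 := by
      have := (h.pos k hk).ne'
      exact mul_left_cancel₀ this (by rw [e3, mul_one])
    calc ψ' (v k) = (φ (v k) * φ (v k)) * ψ' (v k) := by rw [h.sq hk, one_mul]
      _ = φ (v k) * (φ (v k) * ψ' (v k)) := by ring
      _ = φ (v k) := by rw [e4, mul_one]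
  have h10 : φ (v i) = sg b := by
    rw [← h9, hψa, h1, mul_one]
  refine hib ⟨?_, h10⟩
  by_contra hi
  have h11 := h.lt i hi
  rw [h10, abs_sg] at h11
  exact lt_irrefl _ h11

theorem entry_new (hd : 3 ≤ d) (hn : d ≤ n) {v : Fin n → (Fin d → ℝ)} (hA : GenA v)
    {x : Fin d → ℝ} {φ : (Fin d → ℝ) →ₗ[ℝ] ℝ} {I : Finset (Fin n)} {c : Fin n → ℝ}
    (h : FacetAt v x φ I c) :
    ∃ η : ℝ, 0 < η ∧ ∀ s : ℝ, (φ x)⁻¹ < s → s < (φ x)⁻¹ + η → ∀ (i : Fin n) (b : Bool),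
      (Pres (add1 v (s • x)) i.castSucc (Fin.last n) b ↔ (i ∈ I ∧ φ (v i) = sg b)) := by
  have hall : ∀ (i : Fin n) (b : Bool), ∀ᶠ s in nhdsWithin (φ x)⁻¹ (Set.Ioi (φ x)⁻¹),
      (Pres (add1 v (s • x)) i.castSucc (Fin.last n) b ↔ (i ∈ I ∧ φ (v i) = sg b)) := by
    intro i b
    by_cases hib : i ∈ I ∧ φ (v i) = sg b
    · filter_upwards [EntryB_yes hd hA h hib.1 hib.2] with s hs
      exact ⟨fun _ => hib, fun _ => hs⟩
    · have h1 := (wpres_closed hn hA x i.castSucc (Fin.last n) b).isOpen_compl.mem_nhds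
        (EntryB_no hd hA h hib)
      filter_upwards [nhdsWithin_le_nhds h1] with s hs
      exact ⟨fun hP => absurd (pres_wpres hP) hs, fun hP => absurd hP hib⟩
  have h2 := Filter.eventually_all.2 fun i => Filter.eventually_all.2 fun b => hall i b
  obtain ⟨u, hu, hu2⟩ := mem_nhdsGT_iff_exists_Ioo_subset.1 h2
  exact ⟨u - (φ x)⁻¹, sub_pos.2 hu, fun s h1 h2 => hu2 ⟨h1, by linarith⟩⟩

end Pool.Agent.Lib.MP_a3b162_co.NG
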