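import Pool.Agent.Lib.MP_a3b162_co.NG.EntryA
import Pool.Agent.Lib.MP_a3b162_co.NG.EntryB

/-!
MODULE ng16.  Just beyond the facet: the count.
-/

set_option autoImplicit false

namespace Pool.Agent.Lib.MP_a3b162_co.NG

open Pool.Agent.Lib.MP_a3b162_co

variable {d n : ℕ}

theorem EE_add1 (u : Fin (n + 1) → (Fin d → ℝ)) :
    EE u = {t : Fin n × Fin n × Bool | t.1 < t.2.1 ∧
        Pres u t.1.castSucc t.2.1.castSucc t.2.2}.ncard +
      {q : Fin n × Bool | Pres u q.1.castSucc (Fin.last n) q.2}.ncard := by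
  classical
  let f1 : Fin n × Fin n × Bool → Fin (n + 1) × Fin (n + 1) × Bool :=
    fun t => (t.1.castSucc, t.2.1.castSucc, t.2.2)
  let f2 : Fin n × Bool → Fin (n + 1) × Fin (n + 1) × Bool :=
    fun q => (q.1.castSucc, Fin.last n, q.2)
  have hf1 : Function.Injective f1 := by
    rintro ⟨a, b, c⟩ ⟨a', b', c'⟩ h
    simp only [f1, Prod.mk.injEq] at h
    rw [Fin.castSucc_injective n h.1, Fin.castSucc_injective n h.2.1, h.2.2]
  have hf2 : Function.Injective f2 := by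
    rintro ⟨a, c⟩ ⟨a', c'⟩ h
    simp only [f2, Prod.mk.injEq] at h
    rw [Fin.castSucc_injective n h.1, h.2.2]
  rw [← Set.ncard_image_of_injective _ hf1, ← Set.ncard_image_of_injective _ hf2,
    ← Set.ncard_union_eq ?_ (Set.toFinite _) (Set.toFinite _)]
  · unfold EE
    congr 1
    ext ⟨i, j, b⟩
    simp only [Set.mem_ofPred_eq, Set.mem_union, Set.mem_image, f1, f2, Prod.mk.injEq,
      Prod.exists]
    constructor
    · rintro ⟨h1, h2⟩
      have hi : i ≠ Fin.last n := fun h => by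
        rw [h] at h1
        exact absurd h1 (not_lt.2 (Fin.le_last j))
      obtain ⟨i', rfl⟩ := Fin.exists_castSucc_eq.2 hi
      rcases Fin.eq_castSucc_or_eq_last j with ⟨j', rfl⟩ | rfl
      · left
        exact ⟨i', j', b, ⟨by simpa using h1, h2⟩, rfl, rfl, rfl⟩
      · right
        exact ⟨i', b, h2, rfl, rfl, rfl⟩
    · rintro (⟨i', j', b', ⟨h1, h2⟩, rfl, rfl, rfl⟩ | ⟨i', b', h2, rfl, rfl, rfl⟩)
      · exact ⟨by simpa using h1, h2⟩
      · exact ⟨Fin.castSucc_lt_last i', h2⟩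
  · rw [Set.disjoint_left]
    rintro ⟨i, j, b⟩ h1 h2
    obtain ⟨⟨a1, a2, a3⟩, -, h3⟩ := h1
    obtain ⟨⟨b1, b2⟩, -, h4⟩ := h2
    simp only [f1, Prod.mk.injEq] at h3
    simp only [f2, Prod.mk.injEq] at h4
    rw [← h4.2.1] at h3
    exact absurd h3.2.1 (Fin.castSucc_lt_last a2).ne

theorem entry (hd : 3 ≤ d) (hn : d ≤ n) {v : Fin n → (Fin d → ℝ)} (hA : GenA v) (hV : Vtx v)
    {x : Fin d → ℝ} {φ : (Fin d → ℝ) →ₗ[ℝ] ℝ} {I : Finset (Fin n)} {c : Fin n → ℝ}
    (h : FacetAt v x φ I c) :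
    ∃ η : ℝ, 0 < η ∧ ∀ s : ℝ, (φ x)⁻¹ < s → s < (φ x)⁻¹ + η →
      Vtx (add1 v (s • x)) ∧ EE (add1 v (s • x)) = EE v + d := by
  classical
  obtain ⟨η1, hη1, h1⟩ := entry_vtx hd h hV
  obtain ⟨η2, hη2, h2⟩ := entry_old hd h
  obtain ⟨η3, hη3, h3⟩ := entry_new hd hn hA h
  refine ⟨min η1 (min η2 η3), lt_min hη1 (lt_min hη2 hη3), fun s hs1 hs2 => ?_⟩
  have e1 : s < (φ x)⁻¹ + η1 := hs2.trans_le (add_le_add_right (min_le_left _ _) _)
  have e2 : s < (φ x)⁻¹ + η2 :=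
    hs2.trans_le (add_le_add_right ((min_le_right _ _).trans (min_le_left _ _)) _)
  have e3 : s < (φ x)⁻¹ + η3 :=
    hs2.trans_le (add_le_add_right ((min_le_right _ _).trans (min_le_right _ _)) _)
  refine ⟨h1 s hs1 e1, ?_⟩
  rw [EE_add1]
  congr 1
  · unfold EE
    congr 1
    ext ⟨i, j, b⟩
    simp only [Set.mem_ofPred_eq]
    constructor
    · rintro ⟨h4, h5⟩
      exact ⟨h4, (h2 s hs1 e2 i j h4.ne b).1 h5⟩
    · rintro ⟨h4, h5⟩
      exact ⟨h4, (h2 s hs1 e2 i j h4.ne b).2 h5⟩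
  · have h6 : {q : Fin n × Bool | Pres (add1 v (s • x)) q.1.castSucc (Fin.last n) q.2} =
        (fun k : Fin n => (k, decide (φ (v k) = 1))) '' (I : Set (Fin n)) := by
      ext ⟨i, b⟩
      simp only [Set.mem_ofPred_eq, Set.mem_image, Finset.mem_coe, Prod.mk.injEq]
      rw [h3 s hs1 e3 i b]
      constructor
      · rintro ⟨h7, h8⟩
        refine ⟨i, h7, rfl, ?_⟩
        rw [h8]
        cases b
        · simp only [sg_false, decide_eq_false_iff_not]
          norm_num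
        · simp
      · rintro ⟨k, hk, rfl, rfl⟩
        refine ⟨hk, ?_⟩
        rcases eq_or_eq_neg_of_abs_eq (h.one k hk) with h9 | h9
        · rw [h9]
          simp
        · rw [h9]
          have : ¬ ((-1 : ℝ) = 1) := by norm_num
          rw [decide_eq_false this]
          simp
    rw [h6, Set.ncard_image_of_injective _ (fun a b hab => (Prod.mk.inj hab).1),
      Set.ncard_coe_finset, h.card]

end Pool.Agent.Lib.MP_a3b162_co.NG
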