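import Pool.Agent.Lib.MP_a3b162_co.NG.Facet

/-!
MODULE ng14.  Just beyond the facet: vertices and old edges.
-/

set_option autoImplicit false

namespace Pool.Agent.Lib.MP_a3b162_co.NG

open Pool.Agent.Lib.MP_a3b162_co

variable {d n : ℕ}

theorem EntryA_ev {P : ℝ → Prop} {s₀ : ℝ} (h : ∀ᶠ s in nhdsWithin s₀ (Set.Ioi s₀), P s) :
    ∃ η : ℝ, 0 < η ∧ ∀ s : ℝ, s₀ < s → s < s₀ + η → P s := by
  obtain ⟨u, hu, hu2⟩ := mem_nhdsGT_iff_exists_Ioo_subset.1 h
  refine ⟨u - s₀, sub_pos.2 hu, fun s h1 h2 => hu2 ⟨h1, by linarith⟩⟩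

theorem EntryA_le {v : Fin n → (Fin d → ℝ)} {x : Fin d → ℝ}
    {φ : (Fin d → ℝ) →ₗ[ℝ] ℝ} {I : Finset (Fin n)} {c : Fin n → ℝ} (h : FacetAt v x φ I c)
    (k : Fin n) : |φ (v k)| ≤ 1 := by
  by_cases hk : k ∈ I
  · exact (h.one k hk).le
  · exact (h.lt k hk).le

theorem EntryA_near (hd : 1 ≤ d) {v : Fin n → (Fin d → ℝ)} {x : Fin d → ℝ}
    {φ : (Fin d → ℝ) →ₗ[ℝ] ℝ} {I : Finset (Fin n)} {c : Fin n → ℝ} (h : FacetAt v x φ I c)
    (ψ : (Fin d → ℝ) →ₗ[ℝ] ℝ) (h1 : ∀ k ∈ I, |ψ (v k)| ≤ 1) {k0 : Fin n} (hk0 : k0 ∈ I)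
    (h2 : |ψ (v k0)| < 1) : ∀ᶠ s in nhds (φ x)⁻¹, |ψ (s • x)| < 1 := by
  have hpos : 0 < φ x := h.posx hd
  have h3 : |ψ x| < φ x := by
    rw [h.sum]
    conv_lhs => rw [h.eq]
    rw [map_sum]
    refine (Finset.abs_sum_le_sum_abs _ _).trans_lt ?_
    have e1 : ∀ k ∈ I, |ψ ((c k * φ (v k)) • v k)| = c k * |ψ (v k)| := by
      intro k hk
      rw [map_smul, smul_eq_mul, abs_mul, abs_mul, h.one k hk, mul_one, abs_of_pos (h.pos k hk)]
    rw [Finset.sum_congr rfl e1]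
    refine Finset.sum_lt_sum (fun k hk => ?_) ⟨k0, hk0, ?_⟩
    · calc c k * |ψ (v k)| ≤ c k * 1 := mul_le_mul_of_nonneg_left (h1 k hk) (h.pos k hk).le
        _ = c k := mul_one _
    · calc c k0 * |ψ (v k0)| < c k0 * 1 := mul_lt_mul_of_pos_left h2 (h.pos k0 hk0)
        _ = c k0 := mul_one _
  have h4 : Continuous fun s : ℝ => |ψ (s • x)| := by
    have : (fun s : ℝ => |ψ (s • x)|) = fun s => |s * ψ x| := by
      funext s
      rw [map_smul, smul_eq_mul]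
    rw [this]
    exact (continuous_id.mul continuous_const).abs
  have h5 : |ψ ((φ x)⁻¹ • x)| < 1 := by
    rw [map_smul, smul_eq_mul, abs_mul, abs_of_pos (inv_pos.2 hpos)]
    calc (φ x)⁻¹ * |ψ x| < (φ x)⁻¹ * φ x := mul_lt_mul_of_pos_left h3 (inv_pos.2 hpos)
      _ = 1 := inv_mul_cancel₀ hpos.ne'
  exact h4.continuousAt.eventually_lt continuousAt_const h5

theorem EntryA_mem (hd : 3 ≤ d) {I : Finset (Fin n)} (hI : I.card = d) (i j : Fin n) :
    ∃ k ∈ I, k ≠ i ∧ k ≠ j := by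
  classical
  by_contra hcon
  push Not at hcon
  have h1 : I ⊆ {i, j} := by
    intro k hk
    rw [Finset.mem_insert, Finset.mem_singleton]
    by_cases hki : k = i
    · exact Or.inl hki
    · exact Or.inr (hcon k hk hki)
  have h2 := Finset.card_le_card h1
  have h3 : ({i, j} : Finset (Fin n)).card ≤ 2 := Finset.card_le_two
  omega

theorem entry_vtx (hd : 3 ≤ d) {v : Fin n → (Fin d → ℝ)} {x : Fin d → ℝ}
    {φ : (Fin d → ℝ) →ₗ[ℝ] ℝ} {I : Finset (Fin n)} {c : Fin n → ℝ} (h : FacetAt v x φ I c)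
    (hV : Vtx v) : ∃ η : ℝ, 0 < η ∧ ∀ s : ℝ, (φ x)⁻¹ < s → s < (φ x)⁻¹ + η →
      Vtx (add1 v (s • x)) := by
  apply EntryA_ev
  have hpos : 0 < φ x := h.posx (by omega)
  have hall : ∀ i : Fin (n + 1), ∀ᶠ s in nhdsWithin (φ x)⁻¹ (Set.Ioi (φ x)⁻¹),
      ∃ φ' : (Fin d → ℝ) →ₗ[ℝ] ℝ, φ' (add1 v (s • x) i) = 1 ∧
        ∀ k, k ≠ i → |φ' (add1 v (s • x) k)| < 1 := by
    intro i
    rcases Fin.eq_castSucc_or_eq_last i with ⟨i, rfl⟩ | rfl
    · obtain ⟨ψ, h1, h2⟩ := hV i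
      obtain ⟨k0, hk0, hki, -⟩ := EntryA_mem hd h.card i i
      have h3 : ∀ k ∈ I, |ψ (v k)| ≤ 1 := by
        intro k _
        by_cases hk : k = i
        · rw [hk, h1]
          simp
        · exact (h2 k hk).le
      have h4 := EntryA_near (by omega) h ψ h3 hk0 (h2 k0 hki)
      filter_upwards [nhdsWithin_le_nhds h4] with s hs
      refine ⟨ψ, by rw [add1_cast]; exact h1, fun k hk => ?_⟩
      rcases Fin.eq_castSucc_or_eq_last k with ⟨k, rfl⟩ | rfl
      · rw [add1_cast]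
        exact h2 k fun hki => hk (congrArg _ hki)
      · rw [add1_last]
        exact hs
    · filter_upwards [self_mem_nhdsWithin] with s hs
      have hs' : (φ x)⁻¹ < s := hs
      have h5 : 1 < s * φ x := by
        calc (1 : ℝ) = (φ x)⁻¹ * φ x := (inv_mul_cancel₀ hpos.ne').symm
          _ < s * φ x := mul_lt_mul_of_pos_right hs' hpos
      refine ⟨(s * φ x)⁻¹ • φ, ?_, fun k hk => ?_⟩
      · rw [add1_last, LinearMap.smul_apply, map_smul, smul_eq_mul, smul_eq_mul,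
          inv_mul_cancel₀ (by linarith)]
      · rcases Fin.eq_castSucc_or_eq_last k with ⟨k, rfl⟩ | rfl
        · rw [add1_cast, LinearMap.smul_apply, smul_eq_mul, abs_mul,
            abs_of_pos (inv_pos.2 (by linarith))]
          calc (s * φ x)⁻¹ * |φ (v k)| ≤ (s * φ x)⁻¹ * 1 :=
                mul_le_mul_of_nonneg_left (EntryA_le h k) (inv_pos.2 (by linarith)).le
            _ < 1 := by
                rw [mul_one]
                exact inv_lt_one_of_one_lt₀ h5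
        · exact absurd rfl hk
  filter_upwards [Filter.eventually_all.2 hall] with s hs
  exact hs

theorem entry_old (hd : 3 ≤ d) {v : Fin n → (Fin d → ℝ)} {x : Fin d → ℝ}
    {φ : (Fin d → ℝ) →ₗ[ℝ] ℝ} {I : Finset (Fin n)} {c : Fin n → ℝ} (h : FacetAt v x φ I c) :
    ∃ η : ℝ, 0 < η ∧ ∀ s : ℝ, (φ x)⁻¹ < s → s < (φ x)⁻¹ + η → ∀ i j : Fin n, i ≠ j → ∀ b : Bool,
      (Pres (add1 v (s • x)) i.castSucc j.castSucc b ↔ Pres v i j b) := by
  apply EntryA_ev
  have hall : ∀ i j : Fin n, ∀ b : Bool, ∀ᶠ s in nhdsWithin (φ x)⁻¹ (Set.Ioi (φ x)⁻¹),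
      (i ≠ j → (Pres (add1 v (s • x)) i.castSucc j.castSucc b ↔ Pres v i j b)) := by
    intro i j b
    by_cases hP : Pres v i j b
    · obtain ⟨ψ, h1, h2, h3⟩ := hP
      obtain ⟨k0, hk0, hki, hkj⟩ := EntryA_mem hd h.card i j
      have h4 : ∀ k ∈ I, |ψ (v k)| ≤ 1 := by
        intro k _
        by_cases hk : k = i
        · rw [hk, h1]
          simp
        by_cases hk2 : k = j
        · rw [hk2, h2, abs_sg]
        exact (h3 k hk hk2).le
      have h5 := EntryA_near (by omega) h ψ h4 hk0 (h3 k0 hki hkj)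
      filter_upwards [nhdsWithin_le_nhds h5] with s hs _
      refine ⟨fun _ => ⟨ψ, h1, h2, h3⟩, fun _ => ⟨ψ, by rw [add1_cast]; exact h1,
        by rw [add1_cast]; exact h2, fun k hk1 hk2 => ?_⟩⟩
      rcases Fin.eq_castSucc_or_eq_last k with ⟨k, rfl⟩ | rfl
      · rw [add1_cast]
        exact h3 k (fun e => hk1 (congrArg _ e)) (fun e => hk2 (congrArg _ e))
      · rw [add1_last]
        exact hs
    · refine Filter.Eventually.of_forall fun s _ => ?_
      refine ⟨fun hQ => ?_, fun hQ => absurd hQ hP⟩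
      obtain ⟨ψ, h1, h2, h3⟩ := hQ
      rw [add1_cast] at h1 h2
      refine ⟨ψ, h1, h2, fun k hk1 hk2 => ?_⟩
      have h4 := h3 k.castSucc (fun e => hk1 (Fin.castSucc_injective n e))
        (fun e => hk2 (Fin.castSucc_injective n e))
      rwa [add1_cast] at h4
  have h2 := Filter.eventually_all.2 fun i => Filter.eventually_all.2 fun j =>
    Filter.eventually_all.2 fun b => hall i j b
  filter_upwards [h2] with s hs i j hij b
  exact hs i j b hij

end Pool.Agent.Lib.MP_a3b162_co.NG
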