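import Pool.Agent.Lib.MP_a3b162_co.NG.Dual

/-!
MODULE ng13 (55 min).  The facet met by the ray of `x`.

`K = {φ | ∀ k, |φ (v k)| ≤ 1}` is compact (see the text of module ng10: functionals are `a ⬝ᵥ ·`), let
`φ ∈ K` maximize `φ x`, `g = φ x`.  Claim: `x = ∑ κ k • v k` with `∑ |κ k| ≤ g`: the set
`C = {∑ κ k • v k | ∑ |κ k| ≤ g}` is compact and convex; if `x ∉ C`, separate
(`geometric_hahn_banach_closed_point`): `l < u` on `C`, `u < l x`; `0 ∈ C`: `u > 0`.  `g • (± v k) ∈ C`, so
`g |l (v k)| < u`.  (`g > 0`: `x ≠ 0`; the family spans, some functional of `K` is positive at `x`; or treat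
`g = 0` separately: then every functional of `K` vanishes at `x`, so `x = 0`, against `GenA`.)
`φ' = (g / u) • l ∈ K` and `φ' x = g * l x / u > g`: contradiction.
Then `g = φ x = ∑ κ k φ (v k) ≤ ∑ |κ k| ≤ g`, so `κ k φ (v k) = |κ k|` for all `k`.
`I = {k | |φ (v k)| = 1}` contains the support of `κ`, `|I| ≤ d` by `hB`; the support has at least `d`
elements by `GenA (add1 v x)` (otherwise `x` and the `v k` of the support would be at most `d` dependent
vectors), so it is `I` and `|I| = d`.  `c k = |κ k|`, `c k * φ (v k) = κ k` on `I` (`φ (v k) = ± 1`,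
`φ (v k)^2 = 1`).
-/

set_option autoImplicit false

namespace Pool.Agent.Lib.MP_a3b162_co.NG

open Pool.Agent.Lib.MP_a3b162_co

variable {d n : ℕ}

/-- the ray of `x` meets the relative interior of the facet `{φ = 1}` of `PPd v`, with vertices
`φ (v k) • v k`, `k ∈ I` -/
structure FacetAt (v : Fin n → (Fin d → ℝ)) (x : Fin d → ℝ) (φ : (Fin d → ℝ) →ₗ[ℝ] ℝ)
    (I : Finset (Fin n)) (c : Fin n → ℝ) : Prop where
  card : I.card = d
  one : ∀ k ∈ I, |φ (v k)| = 1
  lt : ∀ k, k ∉ I → |φ (v k)| < 1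
  pos : ∀ k ∈ I, 0 < c k
  eq : x = ∑ k ∈ I, (c k * φ (v k)) • v k

theorem FacetAt.sq {v : Fin n → (Fin d → ℝ)} {x : Fin d → ℝ} {φ : (Fin d → ℝ) →ₗ[ℝ] ℝ}
    {I : Finset (Fin n)} {c : Fin n → ℝ} (h : FacetAt v x φ I c) {k : Fin n} (hk : k ∈ I) :
    φ (v k) * φ (v k) = 1 := by
  have h1 := h.one k hk
  rw [← abs_mul_abs_self, h1, one_mul]

theorem FacetAt.sum {v : Fin n → (Fin d → ℝ)} {x : Fin d → ℝ} {φ : (Fin d → ℝ) →ₗ[ℝ] ℝ}
    {I : Finset (Fin n)} {c : Fin n → ℝ} (h : FacetAt v x φ I c) : φ x = ∑ k ∈ I, c k := by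
  rw [h.eq, map_sum]
  refine Finset.sum_congr rfl fun k hk => ?_
  rw [map_smul, smul_eq_mul, mul_assoc, h.sq hk, mul_one]

theorem FacetAt.posx {v : Fin n → (Fin d → ℝ)} {x : Fin d → ℝ} {φ : (Fin d → ℝ) →ₗ[ℝ] ℝ}
    {I : Finset (Fin n)} {c : Fin n → ℝ} (hd : 1 ≤ d) (h : FacetAt v x φ I c) : 0 < φ x := by
  rw [h.sum]
  apply Finset.sum_pos (fun k hk => h.pos k hk)
  rw [← Finset.card_pos, h.card]
  omega

theorem Facet_min {L : (Fin n → ℝ) →ₗ[ℝ] (Fin d → ℝ)} (hL : Function.Surjective L)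
    (x : Fin d → ℝ) : ∃ κ : Fin n → ℝ, L κ = x ∧ ∀ κ', L κ' = x → ∑ k, |κ k| ≤ ∑ k, |κ' k| := by
  obtain ⟨κ0, hκ0⟩ := hL x
  have hc : Continuous fun κ : Fin n → ℝ => ∑ k, |κ k| :=
    continuous_finsetSum _ fun k _ => (continuous_apply k).abs
  have hS : IsCompact {κ : Fin n → ℝ | L κ = x ∧ ∑ k, |κ k| ≤ ∑ k, |κ0 k|} := by
    apply Metric.isCompact_of_isClosed_isBounded
    · apply IsClosed.inter
      · exact isClosed_eq (LinearMap.continuous_of_finiteDimensional L) continuous_const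
      · exact isClosed_le hc continuous_const
    · rw [isBounded_iff_forall_norm_le]
      refine ⟨∑ k, |κ0 k|, fun κ hκ => ?_⟩
      rw [pi_norm_le_iff_of_nonneg (Finset.sum_nonneg fun k _ => abs_nonneg _)]
      intro k
      rw [Real.norm_eq_abs]
      exact (Finset.single_le_sum (f := fun k => |κ k|) (fun k _ => abs_nonneg _)
        (Finset.mem_univ k)).trans hκ.2
  obtain ⟨κ, hκ, hmin⟩ := hS.exists_isMinOn ⟨κ0, hκ0, le_rfl⟩ hc.continuousOn
  refine ⟨κ, hκ.1, fun κ' hκ' => ?_⟩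
  by_cases h : ∑ k, |κ' k| ≤ ∑ k, |κ0 k|
  · exact hmin ⟨hκ', h⟩
  · push Not at h
    exact hκ.2.trans h.le

theorem facet (hd : 1 ≤ d) (hn : d ≤ n) {v : Fin n → (Fin d → ℝ)} {x : Fin d → ℝ} (hB : GenB v)
    (hA : GenA (add1 v x)) :
    ∃ (φ : (Fin d → ℝ) →ₗ[ℝ] ℝ) (I : Finset (Fin n)) (c : Fin n → ℝ), FacetAt v x φ I c := by
  classical
  have hAv : GenA v := genA_init hA
  set L : (Fin n → ℝ) →ₗ[ℝ] (Fin d → ℝ) := Fintype.linearCombination ℝ v with hL
  have hLa : ∀ κ, L κ = ∑ k, κ k • v k := fun κ => Fintype.linearCombination_apply ℝ v κ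
  have hLs : Function.Surjective L := by
    rw [← LinearMap.range_eq_top, hL, Fintype.range_linearCombination]
    exact genA_span hAv hn
  obtain ⟨κ, hκ, hmin⟩ := Facet_min hLs x
  -- the support of `κ`
  have hdep : ∑ k : Fin (n + 1), (Fin.snoc (α := fun _ => ℝ) κ (-1) k) • add1 v x k = 0 := by
    rw [Fin.sum_univ_castSucc]
    simp only [Fin.snoc_castSucc, Fin.snoc_last, add1_cast, add1_last]
    rw [← hLa, hκ, neg_smul, one_smul, add_neg_cancel]
  set T : Finset (Fin n) := Finset.univ.filter fun k => κ k ≠ 0 with hT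
  have hTd : d ≤ T.card := by
    by_contra hcon
    push Not at hcon
    have h1 := dep_zero hA (I := insert (Fin.last n) (T.map Fin.castSuccEmb)) (by
      refine (Finset.card_insert_le _ _).trans ?_
      rw [Finset.card_map]
      omega) hdep (by
      intro k hk
      rcases Fin.eq_castSucc_or_eq_last k with ⟨k', rfl⟩ | rfl
      · rw [Fin.snoc_castSucc]
        by_contra hne
        apply hk
        rw [Finset.mem_insert]
        right
        exact Finset.mem_map.2 ⟨k', Finset.mem_filter.2 ⟨Finset.mem_univ _, hne⟩, rfl⟩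
      · exact absurd (Finset.mem_insert_self _ _) hk) (Fin.last n)
    rw [Fin.snoc_last] at h1
    norm_num at h1
  set g : ℝ := ∑ k, |κ k| with hg
  have hg0 : 0 < g := by
    obtain ⟨k, hk⟩ : T.Nonempty := by
      rw [← Finset.card_pos]
      omega
    exact Finset.sum_pos' (fun k _ => abs_nonneg _)
      ⟨k, Finset.mem_univ _, abs_pos.2 (Finset.mem_filter.1 hk).2⟩
  -- the functional
  obtain ⟨φ, hφx, hφ⟩ : ∃ φ : (Fin d → ℝ) →ₗ[ℝ] ℝ, φ x = g ∧ ∀ k, |φ (v k)| ≤ 1 := by
    have hc : Continuous fun κ : Fin n → ℝ => ∑ k, |κ k| :=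
      continuous_finsetSum _ fun k _ => (continuous_apply k).abs
    have hO : IsOpen (L '' {κ' : Fin n → ℝ | ∑ k, |κ' k| < g}) :=
      LinearMap.isOpenMap_of_finiteDimensional L hLs _ (isOpen_lt hc continuous_const)
    have hCv : Convex ℝ (L '' {κ' : Fin n → ℝ | ∑ k, |κ' k| < g}) := by
      apply Convex.linear_image _ L
      intro κ₁ h₁ κ₂ h₂ a b ha hb hab
      have h₁' : ∑ k, |κ₁ k| < g := h₁
      have h₂' : ∑ k, |κ₂ k| < g := h₂
      show ∑ k, |(a • κ₁ + b • κ₂) k| < g
      calc ∑ k, |(a • κ₁ + b • κ₂) k| ≤ ∑ k, (a * |κ₁ k| + b * |κ₂ k|) := by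
            refine Finset.sum_le_sum fun k _ => ?_
            simp only [Pi.add_apply, Pi.smul_apply, smul_eq_mul]
            refine (abs_add_le _ _).trans ?_
            rw [abs_mul, abs_mul, abs_of_nonneg ha, abs_of_nonneg hb]
        _ = a * ∑ k, |κ₁ k| + b * ∑ k, |κ₂ k| := by
            rw [Finset.sum_add_distrib, Finset.mul_sum, Finset.mul_sum]
        _ < g := by
            rcases ha.eq_or_lt with h0 | h0
            · rw [← h0, zero_mul, zero_add, show b = 1 by linarith, one_mul]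
              exact h₂'
            · nlinarith
    have hx : x ∉ L '' {κ' : Fin n → ℝ | ∑ k, |κ' k| < g} := by
      rintro ⟨κ', h1, h2⟩
      exact absurd (hmin κ' h2) (not_le.2 h1)
    obtain ⟨l, hl⟩ := geometric_hahn_banach_open_point hCv hO hx
    have hlx : 0 < l x := by
      have := hl 0 ⟨0, by simpa using hg0, map_zero L⟩
      rwa [map_zero] at this
    have hlk : ∀ k, g * |l (v k)| ≤ l x := by
      intro k
      by_contra hcon
      push Not at hcon
      have hlk0 : 0 < |l (v k)| := by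
        by_contra h0
        have : |l (v k)| = 0 := le_antisymm (not_lt.1 h0) (abs_nonneg _)
        rw [this, mul_zero] at hcon
        linarith
      -- `r = l x / |l (v k)| < g`
      set r : ℝ := l x / |l (v k)| with hr
      have hr0 : 0 < r := div_pos hlx hlk0
      have hrg : r < g := (div_lt_iff₀ hlk0).2 hcon
      set σ : ℝ := if 0 ≤ l (v k) then r else -r with hσ
      have hσa : |σ| = r := by
        rw [hσ]
        split_ifs
        · exact abs_of_pos hr0
        · rw [abs_neg]; exact abs_of_pos hr0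
      have hσl : σ * l (v k) = l x := by
        have h3 : r * |l (v k)| = l x := div_mul_cancel₀ _ hlk0.ne'
        rw [hσ]
        split_ifs with h4
        · rw [abs_of_nonneg h4] at h3
          exact h3
        · rw [abs_of_neg (not_le.1 h4)] at h3
          linarith
      have h5 := hl (L (Pi.single k σ)) ⟨Pi.single k σ, by
        show ∑ m, |(Pi.single k σ : Fin n → ℝ) m| < g
        have h9 : ∀ m, |(Pi.single k σ : Fin n → ℝ) m| = if m = k then r else 0 := by
          intro m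
          rw [Pi.single_apply]
          split_ifs
          · exact hσa
          · exact abs_zero
        rw [Finset.sum_congr rfl fun m _ => h9 m, Finset.sum_ite_eq' Finset.univ k]
        simpa using hrg, rfl⟩
      rw [hL, Fintype.linearCombination_apply_single, map_smul, smul_eq_mul, hσl] at h5
      exact lt_irrefl _ h5
    refine ⟨(g / l x) • (l : (Fin d → ℝ) →ₗ[ℝ] ℝ), ?_, fun k => ?_⟩
    · rw [LinearMap.smul_apply, smul_eq_mul]
      exact div_mul_cancel₀ _ hlx.ne'
    · rw [LinearMap.smul_apply, smul_eq_mul, abs_mul, abs_of_pos (div_pos hg0 hlx), div_mul_eq_mul_div,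
        div_le_one hlx]
      exact hlk k
  -- complementary slackness
  have e2 : ∀ k, κ k * φ (v k) ≤ |κ k| := by
    intro k
    calc κ k * φ (v k) ≤ |κ k * φ (v k)| := le_abs_self _
      _ = |κ k| * |φ (v k)| := abs_mul _ _
      _ ≤ |κ k| * 1 := mul_le_mul_of_nonneg_left (hφ k) (abs_nonneg _)
      _ = |κ k| := mul_one _
  have e1 : ∑ k, κ k * φ (v k) = g := by
    rw [← hφx, ← hκ, hLa, map_sum]
    refine Finset.sum_congr rfl fun k _ => ?_
    rw [map_smul, smul_eq_mul]
  have e4 : ∀ k, κ k * φ (v k) = |κ k| := by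
    have e5 : ∑ k, (|κ k| - κ k * φ (v k)) = 0 := by
      rw [Finset.sum_sub_distrib, e1, hg, sub_self]
    have e6 := (Finset.sum_eq_zero_iff_of_nonneg (fun k _ => sub_nonneg.2 (e2 k))).1 e5
    intro k
    have := e6 k (Finset.mem_univ k)
    linarith
  have hκφ : ∀ k, κ k ≠ 0 → |φ (v k)| = 1 := by
    intro k hk
    have e6 : |κ k| * |φ (v k)| = |κ k| := by
      rw [← abs_mul, e4, abs_abs]
    exact mul_left_cancel₀ (abs_ne_zero.2 hk) (by rw [e6, mul_one])
  set I : Finset (Fin n) := Finset.univ.filter fun k => |φ (v k)| = 1 with hI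
  have hTI : T ⊆ I := fun k hk =>
    Finset.mem_filter.2 ⟨Finset.mem_univ _, hκφ k (Finset.mem_filter.1 hk).2⟩
  have hId : I.card ≤ d := hB I φ fun k hk => (Finset.mem_filter.1 hk).2
  have hTI' : T = I := Finset.eq_of_subset_of_card_le hTI (by omega)
  have hI1 : ∀ k ∈ I, |φ (v k)| = 1 := fun k hk => (Finset.mem_filter.1 hk).2
  refine ⟨φ, I, fun k => |κ k|, ⟨?_, hI1, ?_, ?_, ?_⟩⟩
  · have := Finset.card_le_card hTI
    omega
  · intro k hk
    refine lt_of_le_of_ne (hφ k) fun h => hk (Finset.mem_filter.2 ⟨Finset.mem_univ _, h⟩)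
  · intro k hk
    rw [← hTI'] at hk
    exact abs_pos.2 (Finset.mem_filter.1 hk).2
  · have h5 : ∀ k ∈ I, (|κ k| * φ (v k)) • v k = κ k • v k := by
      intro k hk
      have h6 : φ (v k) * φ (v k) = 1 := by
        rw [← abs_mul_abs_self, hI1 k hk, one_mul]
      congr 1
      rw [← e4 k, mul_assoc, h6, mul_one]
    rw [Finset.sum_congr rfl h5, ← hκ, hLa]
    symm
    apply Finset.sum_subset (Finset.subset_univ _)
    intro k _ hk
    rw [← hTI'] at hk
    have : κ k = 0 := by
      by_contra hne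
      exact hk (Finset.mem_filter.2 ⟨Finset.mem_univ _, hne⟩)
    rw [this, zero_smul]

end Pool.Agent.Lib.MP_a3b162_co.NG
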