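import Pool.Agent.Lib.MP_a3b162_co.NG.Path

/-!
MODULE ng21.  The induction.

`EE_le_all`: the triples `(i,j,b)` with `i < j`: `2 * (n choose 2) = n * (n-1)` of them.
`induct`: induction on `n` from `d` (`Nat.le_induction`).  `n = d`: `m = d * (d - 1) = EE u` by
`EE_le_all`, take `u`.  `n + 1`: by `vtx_EE_open` and `perturb_sg` replace `u` by `add1 v x` (close to `u`) with
`GenA`, `GenB`, `SG v x`, `Vtx`, and `EE u ≤ EE (add1 v x)`.  If `EE v + d ≤ m`: `path`.  Otherwise
`m - d ≤ EE v` and `d * (n - 1) ≤ m - d` (from `d * n ≤ m`); the induction hypothesis for `v`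
(`genA_init`, `genB_init`, `vtx_init`) gives `w : Fin n → ...` with `EE w = m - d`; `stack` gives `u'` with
`EE u' = m - d + d = m`.
-/

set_option autoImplicit false

namespace Pool.Agent.Lib.MP_a3b162_co.NG

open Pool.Agent.Lib.MP_a3b162_co

variable {d n : ℕ}

theorem ng21_pairs (n : ℕ) :
    2 * ((Finset.univ : Finset (Fin n × Fin n)).filter (fun p => p.1 < p.2)).card =
      n * (n - 1) := by
  classical
  set A := (Finset.univ : Finset (Fin n × Fin n)).filter (fun p => p.1 < p.2) with hA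
  set B := (Finset.univ : Finset (Fin n × Fin n)).filter (fun p => p.2 < p.1) with hB
  have h1 : A.card = B.card := by
    refine Finset.card_bij (fun p _ => (p.2, p.1)) ?_ ?_ ?_
    · rintro ⟨i, j⟩ hp
      simp only [hA, hB, Finset.mem_filter, Finset.mem_univ, true_and] at hp ⊢
      exact hp
    · rintro ⟨i, j⟩ _ ⟨i', j'⟩ _ h
      simp only [Prod.mk.injEq] at h ⊢
      exact ⟨h.2, h.1⟩
    · rintro ⟨i, j⟩ hp
      simp only [hA, hB, Finset.mem_filter, Finset.mem_univ, true_and] at hp ⊢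
      exact ⟨(j, i), by simpa using hp, rfl⟩
  have h2 : Disjoint A B := by
    rw [Finset.disjoint_left]
    rintro ⟨i, j⟩ hp hq
    simp only [hA, hB, Finset.mem_filter, Finset.mem_univ, true_and] at hp hq
    exact absurd hp (not_lt.2 hq.le)
  have h3 : A ∪ B = (Finset.univ : Finset (Fin n)).offDiag := by
    ext ⟨i, j⟩
    simp only [hA, hB, Finset.mem_union, Finset.mem_filter, Finset.mem_univ, true_and,
      Finset.mem_offDiag]
    exact ⟨fun h => h.elim ne_of_lt ne_of_gt, fun h => lt_or_gt_of_ne h⟩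
  have h4 := Finset.card_union_of_disjoint h2
  rw [h3, Finset.offDiag_card, Finset.card_univ, Fintype.card_fin] at h4
  rw [Nat.mul_sub, mul_one]
  omega

theorem EE_le_all (v : Fin n → (Fin d → ℝ)) : EE v ≤ n * (n - 1) := by
  classical
  unfold EE
  set A := (Finset.univ : Finset (Fin n × Fin n)).filter (fun p => p.1 < p.2) with hA
  have h1 : {t : Fin n × Fin n × Bool | t.1 < t.2.1 ∧ Pres v t.1 t.2.1 t.2.2} ⊆
      (((A ×ˢ (Finset.univ : Finset Bool)).image
        (fun q : (Fin n × Fin n) × Bool => (q.1.1, q.1.2, q.2)) :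
        Finset (Fin n × Fin n × Bool)) : Set (Fin n × Fin n × Bool)) := by
    rintro ⟨i, j, b⟩ ⟨h1, _⟩
    rw [Finset.mem_coe, Finset.mem_image]
    refine ⟨((i, j), b), ?_, rfl⟩
    simp only [Finset.mem_product, Finset.mem_univ, and_true, hA, Finset.mem_filter, true_and]
    exact h1
  refine (Set.ncard_le_ncard h1 (Finset.finite_toSet _)).trans ?_
  rw [Set.ncard_coe_finset]
  refine Finset.card_image_le.trans ?_
  rw [Finset.card_product, Finset.card_univ, Fintype.card_bool, mul_comm]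
  exact (ng21_pairs n).le

theorem induct (hd : 4 ≤ d) (hn : d ≤ n) {u : Fin n → (Fin d → ℝ)} (hA : GenA u) (hB : GenB u)
    (hV : Vtx u) {m : ℕ} (h1 : d * (n - 1) ≤ m) (h2 : m ≤ EE u) :
    ∃ u' : Fin n → (Fin d → ℝ), GenA u' ∧ GenB u' ∧ Vtx u' ∧ EE u' = m := by
  induction n, hn using Nat.le_induction generalizing m with
  | base =>
    have h3 := EE_le_all u
    exact ⟨u, hA, hB, hV, by omega⟩
  | succ n hn ih =>
    obtain ⟨δ, hδ, hopen⟩ := vtx_EE_open hV
    obtain ⟨v, x, hclose, hA', hB', hSG⟩ := perturb_sg (by omega) u δ hδ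
    obtain ⟨hV', hE⟩ := hopen _ hclose
    by_cases hcase : EE v + d ≤ m
    · exact path hd hn hA' hB' hSG hV' hcase (h2.trans hE)
    · push Not at hcase
      have h3 : d * (n + 1 - 1) = d * (n - 1) + d := by
        obtain ⟨k, rfl⟩ : ∃ k, n = k + 1 := ⟨n - 1, by omega⟩
        simp only [Nat.add_sub_cancel]
        ring
      obtain ⟨w, hwA, hwB, hwV, hwE⟩ := ih (genA_init hA') (genB_init hB') (vtx_init hV')
        (m := m - d) (by omega) (by omega)
      obtain ⟨u', hu1, hu2, hu3, hu4⟩ := stack hd hn hwA hwB hwV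
      exact ⟨u', hu1, hu2, hu3, by omega⟩

end Pool.Agent.Lib.MP_a3b162_co.NG
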