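import Mathlib

/-!
MODULE ng18.  An intermediate value theorem for integer valued functions.

Suppose no such `s`.  Then `E a < m` and `E b > m`.  `U = {s | ∀ᶠ s' in 𝓝 s, s' ∈ Icc a b →
s' ∉ W → E s' < m}` and `V` (with `m < E s'`) are open.  For `s ∈ Icc a b`: if `E s + 1 ≤ m` then
near `s` we have `E s' ≤ m`, and `E s' ≠ m` for `s' ∈ Icc a b`, `s' ∉ W`, so `s ∈ U`; if
`E s ≥ m`, then `s ∈ V`.  `isPreconnected_Icc` gives `s ∈ Icc a b` with `s ∈ U ∩ V`: impossible.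
-/

set_option autoImplicit false

namespace Pool.Agent.Lib.MP_a3b162_co.NG

theorem ivt_nat {a b : ℝ} (hab : a < b) (E : ℝ → ℕ) (W : Set ℝ) (hW : W.Finite) (ha : a ∉ W)
    (hb : b ∉ W)
    (h : ∀ s ∈ Set.Icc a b, ∀ᶠ s' in nhds s, E s ≤ E s' ∧ E s' ≤ E s + 1) {m : ℕ}
    (h1 : E a ≤ m) (h2 : m ≤ E b) : ∃ s ∈ Set.Icc a b, s ∉ W ∧ E s = m := by
  by_contra hcon
  push Not at hcon
  have haI : a ∈ Set.Icc a b := ⟨le_rfl, hab.le⟩
  have hbI : b ∈ Set.Icc a b := ⟨hab.le, le_rfl⟩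
  have hEa : E a < m := lt_of_le_of_ne h1 (hcon a haI ha)
  have hEb : m < E b := lt_of_le_of_ne h2 (Ne.symm (hcon b hbI hb))
  set U : Set ℝ := {s | ∀ᶠ s' in nhds s, s' ∈ Set.Icc a b → s' ∉ W → E s' < m} with hU
  set V : Set ℝ := {s | ∀ᶠ s' in nhds s, s' ∈ Set.Icc a b → s' ∉ W → m < E s'} with hV
  have hUo : IsOpen U := isOpen_setOfPred_eventually_nhds
  have hVo : IsOpen V := isOpen_setOfPred_eventually_nhds
  have hUV : ∀ s ∈ Set.Icc a b, (E s < m → s ∈ U) ∧ (m ≤ E s → s ∈ V) := by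
    intro s hs
    refine ⟨fun hlt => ?_, fun hge => ?_⟩
    · filter_upwards [h s hs] with s' hs' hI hw
      have := hcon s' hI hw
      omega
    · filter_upwards [h s hs] with s' hs' hI hw
      have := hcon s' hI hw
      omega
  have hcov : Set.Icc a b ⊆ U ∪ V := by
    intro s hs
    rcases lt_or_ge (E s) m with hlt | hge
    · exact Or.inl ((hUV s hs).1 hlt)
    · exact Or.inr ((hUV s hs).2 hge)
  obtain ⟨s, hsI, hsU, hsV⟩ := isPreconnected_Icc (a := a) (b := b) U V hUo hVo hcov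
    ⟨a, haI, (hUV a haI).1 hEa⟩ ⟨b, hbI, (hUV b hbI).2 hEb.le⟩
  -- every neighbourhood of `s` contains points of `Icc a b` outside the finite set `W`
  have hev : ∀ᶠ s' in nhds s, s' ∈ Set.Icc a b → s' ∈ W := by
    filter_upwards [hsU, hsV] with s' h3 h4 hI
    by_contra hw
    have := h3 hI hw
    have := h4 hI hw
    omega
  obtain ⟨ε, hε, hball⟩ := Metric.eventually_nhds_iff_ball.1 hev
  -- an interval inside
  have hsub : ∃ c e : ℝ, c < e ∧ Set.Ioo c e ⊆ W := by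
    rcases lt_or_ge s b with hsb | hsb
    · refine ⟨s, min (s + ε) b, lt_min (by linarith) hsb, fun z hz => ?_⟩
      have hz1 := hz.1
      have hz2 := lt_min_iff.1 hz.2
      refine hball z ?_ ⟨hsI.1.trans hz1.le, hz2.2.le⟩
      rw [Metric.mem_ball, Real.dist_eq, abs_lt]
      constructor <;> linarith [hz2.1]
    · have hsb' : s = b := le_antisymm hsI.2 hsb
      refine ⟨max (s - ε) a, s, max_lt (by linarith) (by linarith), fun z hz => ?_⟩
      have hz1 := max_lt_iff.1 hz.1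
      have hz2 := hz.2
      refine hball z ?_ ⟨hz1.2.le, hz2.le.trans hsI.2⟩
      rw [Metric.mem_ball, Real.dist_eq, abs_lt]
      constructor <;> linarith [hz1.1]
  obtain ⟨c, e, hce, hsubW⟩ := hsub
  exact (Set.Ioo_infinite hce) (hW.subset hsubW)

end Pool.Agent.Lib.MP_a3b162_co.NG
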