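import Pool.Agent.Lib.MP_a3b162_co.NG.Basic
import Pool.Agent.Lib.MP_a3b162_co.LD

/-!
MODULE ng8 (25 min).  `Vtx` is an open condition.

For one `i`: `φ (v i) = 1`, `|φ (v k)| < 1`.  For `v'` near `v`: `φ (v' i) > |φ (v' k)|` for all `k ≠ i`
and `φ (v' i) > 0` (finitely many strict inequalities between continuous functions; see `LD.lean`);
`φ / φ (v' i)` is the functional for `v'`.  `EE` can only grow under small perturbations:
`pres_open` (LD) with `vtx_ne`, and `EE_mono`.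
-/

set_option autoImplicit false

namespace Pool.Agent.Lib.MP_a3b162_co.NG

open Pool.Agent.Lib.MP_a3b162_co

variable {d n : ℕ}

theorem VOpen_one {v : Fin n → (Fin d → ℝ)} {i : Fin n}
    (h : ∃ φ : (Fin d → ℝ) →ₗ[ℝ] ℝ, φ (v i) = 1 ∧ ∀ k, k ≠ i → |φ (v k)| < 1) :
    ∀ᶠ v' in nhds v, ∃ φ : (Fin d → ℝ) →ₗ[ℝ] ℝ, φ (v' i) = 1 ∧ ∀ k, k ≠ i → |φ (v' k)| < 1 := by
  obtain ⟨φ, h1, h2⟩ := h
  have hcont : ∀ k : Fin n, Continuous (fun v' : Fin n → (Fin d → ℝ) => φ (v' k)) := fun k =>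
    (LinearMap.continuous_of_finiteDimensional φ).comp (continuous_apply k)
  have hev1 : ∀ᶠ v' in nhds v, 0 < φ (v' i) := by
    have h0 : (0 : ℝ) < φ (v i) := by
      rw [h1]
      exact one_pos
    exact (hcont i).continuousAt.eventually_const_lt h0
  have hev2 : ∀ᶠ v' in nhds v, ∀ k, k ≠ i → |φ (v' k)| < φ (v' i) := by
    rw [Filter.eventually_all]
    intro k
    by_cases hk : k = i
    · exact Filter.Eventually.of_forall fun v' h => absurd hk h
    · have h3 : 0 < φ (v i) - |φ (v k)| := by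
        rw [h1]
        linarith [h2 k hk]
      have h4 : ContinuousAt (fun v' : Fin n → (Fin d → ℝ) => φ (v' i) - |φ (v' k)|) v :=
        ((hcont i).sub (hcont k).abs).continuousAt
      filter_upwards [h4.eventually_const_lt h3] with v' h5 _
      linarith
  filter_upwards [hev1, hev2] with v' h3 h4
  refine ⟨(φ (v' i))⁻¹ • φ, ?_, fun k hk => ?_⟩
  · rw [LinearMap.smul_apply, smul_eq_mul]
    exact inv_mul_cancel₀ h3.ne'
  · rw [LinearMap.smul_apply, smul_eq_mul, abs_mul, abs_inv, abs_of_pos h3, inv_mul_lt_iff₀ h3,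
      mul_one]
    exact h4 k hk

theorem vtx_open {v : Fin n → (Fin d → ℝ)} (hV : Vtx v) :
    ∃ δ : ℝ, 0 < δ ∧ ∀ v' : Fin n → (Fin d → ℝ), (∀ i, ‖v' i - v i‖ < δ) → Vtx v' := by
  have hev : ∀ᶠ v' in nhds v, Vtx v' := by
    unfold Vtx
    rw [Filter.eventually_all]
    exact fun i => VOpen_one (hV i)
  obtain ⟨δ, hδ, h⟩ := Metric.eventually_nhds_iff.1 hev
  refine ⟨δ, hδ, fun v' hv' => h ?_⟩
  rw [dist_eq_norm, pi_norm_lt_iff hδ]
  exact hv'

theorem vtx_EE_open {v : Fin n → (Fin d → ℝ)} (hV : Vtx v) :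
    ∃ δ : ℝ, 0 < δ ∧ ∀ v' : Fin n → (Fin d → ℝ), (∀ i, ‖v' i - v i‖ < δ) →
      Vtx v' ∧ EE v ≤ EE v' := by
  obtain ⟨δ₁, h1, h2⟩ := vtx_open hV
  obtain ⟨δ₂, h3, h4⟩ := pres_open v (fun i j hij b => vtx_ne hV hij b)
  refine ⟨min δ₁ δ₂, lt_min h1 h3, fun v' hv' => ⟨h2 v' fun i => (hv' i).trans_le (min_le_left _ _),
    EE_mono fun i j hij b hp => ?_⟩⟩
  exact h4 v' (fun i => (hv' i).trans_le (min_le_right _ _)) i j hij.ne b hp

end Pool.Agent.Lib.MP_a3b162_co.NG
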