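import Pool.Agent.Lib.MP_a3b162_co.NG.WUnique
import Pool.Agent.Lib.MP_a3b162_co.NG.WClosed
import Pool.Agent.Lib.MP_a3b162_co.NG.VOpen

/-!
MODULE ng17.  Along the ray the number of edges jumps by at most one.
-/

set_option autoImplicit false

namespace Pool.Agent.Lib.MP_a3b162_co.NG

open Pool.Agent.Lib.MP_a3b162_co

variable {d n : ℕ}

theorem local_bound (hd : 4 ≤ d) (hn : d ≤ n) {v : Fin n → (Fin d → ℝ)} {x : Fin d → ℝ}
    (hA : GenA (add1 v x)) (hB : GenB v) (hSG : SG v x) {s : ℝ} (hs : 0 < s)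
    (hV : Vtx (add1 v (s • x))) :
    ∀ᶠ s' in nhds s, EE (add1 v (s • x)) ≤ EE (add1 v (s' • x)) ∧
      EE (add1 v (s' • x)) ≤ EE (add1 v (s • x)) + 1 := by
  classical
  obtain ⟨δ, hδ, h1⟩ := vtx_EE_open hV
  have h2 : ∀ᶠ s' in nhds s, ‖s' • x - s • x‖ < δ := by
    have hc : Continuous fun s' : ℝ => ‖s' • x - s • x‖ :=
      ((continuous_id.smul continuous_const).sub continuous_const).norm
    refine hc.continuousAt.eventually_lt continuousAt_const ?_
    simp only [sub_self, norm_zero]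
    exact hδ
  have hAv : GenA v := genA_init hA
  have h3 : ∀ᶠ s' in nhds s, ∀ (i j : Fin (n + 1)) (b : Bool),
      WPres (add1 v (s' • x)) i j b → WPres (add1 v (s • x)) i j b := by
    refine Filter.eventually_all.2 fun i => Filter.eventually_all.2 fun j =>
      Filter.eventually_all.2 fun b => ?_
    by_cases hW : WPres (add1 v (s • x)) i j b
    · exact Filter.Eventually.of_forall fun _ _ => hW
    · have h4 := (wpres_closed hn hAv x i j b).isOpen_compl.mem_nhds hW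
      filter_upwards [h4] with s' hs' hW'
      exact absurd hW' hs'
  filter_upwards [h2, h3] with s' h5 h6
  refine ⟨(h1 (add1 v (s' • x)) fun i => ?_).2, ?_⟩
  · rcases Fin.eq_castSucc_or_eq_last i with ⟨i, rfl⟩ | rfl
    · rw [add1_cast, add1_cast, sub_self, norm_zero]
      exact hδ
    · rw [add1_last, add1_last]
      exact h5
  · set P : Set (Fin (n + 1) × Fin (n + 1) × Bool) :=
      {t | t.1 < t.2.1 ∧ Pres (add1 v (s • x)) t.1 t.2.1 t.2.2} with hP
    set Q : Set (Fin (n + 1) × Fin (n + 1) × Bool) :=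
      {t | t.1 < t.2.1 ∧ WPres (add1 v (s • x)) t.1 t.2.1 t.2.2 ∧
        ¬ Pres (add1 v (s • x)) t.1 t.2.1 t.2.2} with hQ
    have h7 : {t : Fin (n + 1) × Fin (n + 1) × Bool |
        t.1 < t.2.1 ∧ Pres (add1 v (s' • x)) t.1 t.2.1 t.2.2} ⊆ P ∪ Q := by
      rintro ⟨i, j, b⟩ ⟨h8, h9⟩
      by_cases h10 : Pres (add1 v (s • x)) i j b
      · left
        exact ⟨h8, h10⟩
      · right
        exact ⟨h8, h6 i j b (pres_wpres h9), h10⟩
    have h11 : Q.ncard ≤ 1 := by
      rw [Set.ncard_le_one (Set.toFinite _)]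
      rintro ⟨i, j, b⟩ ⟨h12, h13, h14⟩ ⟨i', j', b'⟩ ⟨h12', h13', h14'⟩
      obtain ⟨e1, e2, e3⟩ := wall_unique hd hB hSG hA hs hV h12 h12' h13 h14 h13' h14'
      simp only at e1 e2 e3
      rw [e1, e2, e3]
    calc EE (add1 v (s' • x)) ≤ (P ∪ Q).ncard := Set.ncard_le_ncard h7 (Set.toFinite _)
      _ ≤ P.ncard + Q.ncard := Set.ncard_union_le _ _
      _ ≤ EE (add1 v (s • x)) + 1 := Nat.add_le_add le_rfl h11

end Pool.Agent.Lib.MP_a3b162_co.NG
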