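import Pool.Agent.Lib.MP_a3b162_co.NG.Basic

/-!
MODULE ng9 (40 min).  Duality for absent edges.

`B = {κ : Fin n → ℝ | κ i = 0 ∧ κ j = 0 ∧ ∑ |κ k| ≤ 1}` is compact and convex, `C` = its image under the
linear map `κ ↦ ∑ κ k • v k` is compact and convex and contains `0`.  `L = {(1-t) • v i + (t * sg b) • v j}`
is a closed convex set (a line or a point: an affine subspace, `AffineSubspace.closed_of_finiteDimensional`,
or the range of `AffineMap.lineMap`).  If `C` and `L` are disjoint, `geometric_hahn_banach_compact_closed`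
gives `l` and `u < w` with `l < u` on `C` and `w < l` on `L`; `0 ∈ C` gives `0 < u`;
`l` is bounded below on the line `L`, so `l (v i) = l (sg b • v j) = β > w > u > 0`; `φ = l / β` satisfies
`φ (v i) = 1`, `φ (v j) = sg b`, and `|φ (v k)| < u / β < 1` for `k ≠ i, j` (`± v k ∈ C`), i.e. `Pres v i j b`.
So `C` meets `L`.
-/

set_option autoImplicit false

namespace Pool.Agent.Lib.MP_a3b162_co.NG

open Pool.Agent.Lib.MP_a3b162_co

variable {d n : ℕ}

theorem NotPres_compact (i j : Fin n) :
    IsCompact {κ : Fin n → ℝ | κ i = 0 ∧ κ j = 0 ∧ ∑ k, |κ k| ≤ 1} := by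
  apply Metric.isCompact_of_isClosed_isBounded
  · apply IsClosed.inter
    · exact isClosed_eq (continuous_apply i) continuous_const
    apply IsClosed.inter
    · exact isClosed_eq (continuous_apply j) continuous_const
    · exact isClosed_le (continuous_finsetSum _ fun k _ => (continuous_apply k).abs)
        continuous_const
  · rw [isBounded_iff_forall_norm_le]
    refine ⟨1, fun κ hκ => ?_⟩
    rw [pi_norm_le_iff_of_nonneg zero_le_one]
    intro k
    rw [Real.norm_eq_abs]
    exact (Finset.single_le_sum (f := fun k => |κ k|) (fun k _ => abs_nonneg _)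
      (Finset.mem_univ k)).trans hκ.2.2

theorem NotPres_convex (i j : Fin n) :
    Convex ℝ {κ : Fin n → ℝ | κ i = 0 ∧ κ j = 0 ∧ ∑ k, |κ k| ≤ 1} := by
  rintro κ ⟨h1, h2, h3⟩ κ' ⟨h1', h2', h3'⟩ a b ha hb hab
  refine ⟨by simp [h1, h1'], by simp [h2, h2'], ?_⟩
  calc ∑ k, |(a • κ + b • κ') k| ≤ ∑ k, (a * |κ k| + b * |κ' k|) := by
        refine Finset.sum_le_sum fun k _ => ?_
        simp only [Pi.add_apply, Pi.smul_apply, smul_eq_mul]
        refine (abs_add_le _ _).trans ?_
        rw [abs_mul, abs_mul, abs_of_nonneg ha, abs_of_nonneg hb]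
    _ = a * ∑ k, |κ k| + b * ∑ k, |κ' k| := by
        rw [Finset.sum_add_distrib, Finset.mul_sum, Finset.mul_sum]
    _ ≤ a * 1 + b * 1 := by gcongr
    _ = 1 := by rw [mul_one, mul_one, hab]

theorem not_pres {v : Fin n → (Fin d → ℝ)} {i j : Fin n} (hij : i ≠ j) {b : Bool}
    (h : ¬ Pres v i j b) :
    ∃ (t : ℝ) (κ : Fin n → ℝ), κ i = 0 ∧ κ j = 0 ∧ ∑ k, |κ k| ≤ 1 ∧
      (1 - t) • v i + (t * sg b) • v j = ∑ k, κ k • v k := by
  classical
  set L : (Fin n → ℝ) →ₗ[ℝ] (Fin d → ℝ) := Fintype.linearCombination ℝ v with hL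
  have hLa : ∀ κ, L κ = ∑ k, κ k • v k := fun κ => Fintype.linearCombination_apply ℝ v κ
  set B : Set (Fin n → ℝ) := {κ : Fin n → ℝ | κ i = 0 ∧ κ j = 0 ∧ ∑ k, |κ k| ≤ 1} with hB
  have hC1 : IsCompact (L '' B) :=
    (NotPres_compact i j).image (LinearMap.continuous_of_finiteDimensional L)
  have hC2 : Convex ℝ (L '' B) := (NotPres_convex i j).linear_image L
  set R : Set (Fin d → ℝ) := (AffineSubspace.mk' (v i) (Submodule.span ℝ {sg b • v j - v i}) :
    Set (Fin d → ℝ)) with hR
  have hR1 : IsClosed R := AffineSubspace.closed_of_finiteDimensional _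
  have hR2 : Convex ℝ R := AffineSubspace.convex _
  have hRmem : ∀ t : ℝ, (1 - t) • v i + (t * sg b) • v j ∈ R := by
    intro t
    rw [hR, SetLike.mem_coe, AffineSubspace.mem_mk', vsub_eq_sub, Submodule.mem_span_singleton]
    exact ⟨t, by module⟩
  by_cases hdis : Disjoint (L '' B) R
  · exfalso
    apply h
    obtain ⟨l, p, q, h1, h2, h3⟩ := geometric_hahn_banach_compact_closed hC2 hC1 hR2 hR1 hdis
    have hp : 0 < p := by
      have h4 := h1 0 ⟨0, ⟨rfl, rfl, by simp⟩, map_zero L⟩
      rwa [map_zero] at h4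
    have h5 : ∀ t : ℝ, q < (1 - t) * l (v i) + t * (sg b * l (v j)) := by
      intro t
      have h6 := h3 _ (hRmem t)
      rw [map_add, map_smul, map_smul, smul_eq_mul, smul_eq_mul, mul_assoc] at h6
      exact h6
    have h6 : sg b * l (v j) = l (v i) := by
      by_contra hne
      have hne' : sg b * l (v j) - l (v i) ≠ 0 := sub_ne_zero.2 hne
      have h7 := h5 ((q - l (v i)) / (sg b * l (v j) - l (v i)))
      have h8 : (1 - (q - l (v i)) / (sg b * l (v j) - l (v i))) * l (v i) +
          (q - l (v i)) / (sg b * l (v j) - l (v i)) * (sg b * l (v j)) = q := by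
        field_simp
        ring
      rw [h8] at h7
      exact lt_irrefl _ h7
    have h7 : q < l (v i) := by simpa using h5 0
    have hpos : 0 < l (v i) := by linarith
    refine ⟨(l (v i))⁻¹ • (l : (Fin d → ℝ) →ₗ[ℝ] ℝ), ?_, ?_, fun k hk1 hk2 => ?_⟩
    · rw [LinearMap.smul_apply, smul_eq_mul]
      exact inv_mul_cancel₀ hpos.ne'
    · rw [LinearMap.smul_apply, smul_eq_mul]
      have h8 : (l : (Fin d → ℝ) →ₗ[ℝ] ℝ) (v j) = sg b * l (v i) := by
        rw [← h6, ← mul_assoc, sg_mul_self, one_mul]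
        rfl
      rw [h8, mul_comm, mul_assoc, mul_inv_cancel₀ hpos.ne', mul_one]
    · have hmem : ∀ e : Bool, sg e * l (v k) < p := by
        intro e
        have h8 := h1 (L (Pi.single k (sg e))) ⟨Pi.single k (sg e), ⟨by
          rw [Pi.single_apply, if_neg (Ne.symm hk1)], by
          rw [Pi.single_apply, if_neg (Ne.symm hk2)], by
          have h9 : ∀ m, |(Pi.single k (sg e) : Fin n → ℝ) m| = if m = k then 1 else 0 := by
            intro m
            rw [Pi.single_apply]
            split_ifs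
            · exact abs_sg e
            · exact abs_zero
          rw [Finset.sum_congr rfl fun m _ => h9 m, Finset.sum_ite_eq' Finset.univ k]
          simp⟩, rfl⟩
        rw [hL, Fintype.linearCombination_apply_single, map_smul, smul_eq_mul] at h8
        exact h8
      have h8 := hmem true
      have h9 := hmem false
      rw [sg_true, one_mul] at h8
      rw [sg_false] at h9
      rw [LinearMap.smul_apply, smul_eq_mul, abs_mul, abs_inv, abs_of_pos hpos, inv_mul_lt_iff₀ hpos,
        mul_one]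
      have h10 : |l (v k)| < p := abs_lt.2 ⟨by linarith, h8⟩
      exact h10.trans (h2.trans h7)
  · rw [Set.not_disjoint_iff] at hdis
    obtain ⟨y, ⟨κ, hκ, rfl⟩, hy⟩ := hdis
    rw [hR, SetLike.mem_coe, AffineSubspace.mem_mk', vsub_eq_sub,
      Submodule.mem_span_singleton] at hy
    obtain ⟨t, ht⟩ := hy
    refine ⟨t, κ, hκ.1, hκ.2.1, hκ.2.2, ?_⟩
    rw [← hLa, ← sub_add_cancel (L κ) (v i), ← ht]
    module

end Pool.Agent.Lib.MP_a3b162_co.NG
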