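import Pool.Agent.Lib.MP_a3b162_co.NG.Dual

/-!
MODULE ng19.  Finitely many walls.

If `GenB (add1 v (s • x))` fails there are `J` with more than `d` elements and `φ` with
`|φ (add1 v (s • x) k)| = 1` on `J`; the old indices of `J` are at most `d` (`hB`), so `last ∈ J` and the old
ones are exactly `d`: `φ ∈ Phi v`, `|s * φ x| = 1`, `s = |φ x|⁻¹`.  So the set is contained in the image of the
finite set `Phi v` (`phi_finite`) under `φ ↦ |φ x|⁻¹`.
-/

set_option autoImplicit false

namespace Pool.Agent.Lib.MP_a3b162_co.NG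

open Pool.Agent.Lib.MP_a3b162_co

variable {d n : ℕ}

theorem walls_finite {v : Fin n → (Fin d → ℝ)} (hA : GenA v) (hB : GenB v) (x : Fin d → ℝ) :
    {s : ℝ | 0 < s ∧ ¬ GenB (add1 v (s • x))}.Finite := by
  classical
  refine ((phi_finite hA).image (fun φ : (Fin d → ℝ) →ₗ[ℝ] ℝ => |φ x|⁻¹)).subset ?_
  rintro s ⟨hs, hnot⟩
  unfold GenB at hnot
  push Not at hnot
  obtain ⟨J, φ, hφ, hcard⟩ := hnot
  -- the old indices
  set I : Finset (Fin n) := Finset.univ.filter (fun k => k.castSucc ∈ J) with hI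
  have hIφ : ∀ i ∈ I, |φ (v i)| = 1 := by
    intro i hi
    have h1 : i.castSucc ∈ J := (Finset.mem_filter.1 hi).2
    simpa using hφ _ h1
  have hIc : I.card ≤ d := hB I φ hIφ
  have hsub : J ⊆ insert (Fin.last n) (I.map Fin.castSuccEmb) := by
    intro k hk
    rcases Fin.eq_castSucc_or_eq_last k with ⟨i, rfl⟩ | rfl
    · refine Finset.mem_insert_of_mem ?_
      exact Finset.mem_map.2 ⟨i, Finset.mem_filter.2 ⟨Finset.mem_univ _, hk⟩, rfl⟩
    · exact Finset.mem_insert_self _ _
  have hcard2 : J.card ≤ I.card + 1 := by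
    refine (Finset.card_le_card hsub).trans ((Finset.card_insert_le _ _).trans ?_)
    rw [Finset.card_map]
  have hId : I.card = d := by omega
  have hlast : Fin.last n ∈ J := by
    by_contra hcon
    have hsub' : J ⊆ I.map Fin.castSuccEmb := by
      intro k hk
      rcases Finset.mem_insert.1 (hsub hk) with rfl | h
      · exact absurd hk hcon
      · exact h
    have := Finset.card_le_card hsub'
    rw [Finset.card_map] at this
    omega
  refine ⟨φ, ⟨I, hId, hIφ⟩, ?_⟩
  have h2 := hφ _ hlast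
  rw [add1_last, map_smul, smul_eq_mul, abs_mul, abs_of_pos hs] at h2
  exact (eq_inv_of_mul_eq_one_left h2).symm

end Pool.Agent.Lib.MP_a3b162_co.NG
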