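import Pool.Agent.Lib.MP_a3b162_co.NG.Entry
import Pool.Agent.Lib.MP_a3b162_co.NG.LocalB
import Pool.Agent.Lib.MP_a3b162_co.NG.Ivt
import Pool.Agent.Lib.MP_a3b162_co.NG.WFin
import Pool.Agent.Lib.MP_a3b162_co.NG.Avoid

/-!
MODULE ng20.  The path and the stacking.

`vtx_path`: `(φ x)⁻¹ < s ≤ 1`: last index: `φ / (s φ x)`; index `i < n`: the functional `ψ` of
`Vtx (add1 v x)` at `i`: `|ψ (s • x)| = s |ψ x| < 1`.
`path`: `facet` (with `hB` restricted: `genB_init`) gives `φ, I, c`.  `(φ x)⁻¹ < 1`: the functional `ψ` of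
`Vtx (add1 v x)` at `last`: `1 = ψ x = ∑ c k φ(v k) ψ(v k) < ∑ c k = φ x` (`|ψ (v k)| < 1`, `I ≠ ∅`).
`entry` gives `η`; choose `a` with `(φ x)⁻¹ < a < min ((φ x)⁻¹ + η) 1` outside the finite set
`W = {s | 0 < s ∧ ¬ GenB (add1 v (s • x))}` (`walls_finite`); `1 ∉ W` by `hB`.  `ivt_nat` on `[a, 1]` with
`E s = EE (add1 v (s • x))` (`local_bound`, `vtx_path`; `E a = EE v + d`, `E 1 = EE (add1 v x)`) gives `s`
with `E s = m`, `s ∉ W`; `u = add1 v (s • x)`: `genA_smul`, `GenB` from `s ∉ W`, `vtx_path`.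
`stack`: `add_point` (with `x0 = 0`, `δ = 1`) gives `x` with `GenA (add1 v x)` and `SG v x`; `facet`, `entry`; choose
`s` slightly larger than `(φ x)⁻¹`, not in `W`.
-/

set_option autoImplicit false

namespace Pool.Agent.Lib.MP_a3b162_co.NG

open Pool.Agent.Lib.MP_a3b162_co

variable {d n : ℕ}

theorem vtx_path {v : Fin n → (Fin d → ℝ)} {x : Fin d → ℝ} (hV : Vtx (add1 v x))
    {φ : (Fin d → ℝ) →ₗ[ℝ] ℝ} {I : Finset (Fin n)} {c : Fin n → ℝ} (hd : 1 ≤ d)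
    (h : FacetAt v x φ I c) {s : ℝ} (h1 : (φ x)⁻¹ < s) (h2 : s ≤ 1) :
    Vtx (add1 v (s • x)) := by
  have hg : 0 < φ x := h.posx hd
  have hs : 0 < s := (inv_pos.2 hg).trans h1
  have hsg : 1 < s * φ x := by
    have h3 := mul_lt_mul_of_pos_right h1 hg
    rwa [inv_mul_cancel₀ hg.ne'] at h3
  intro i
  rcases Fin.eq_castSucc_or_eq_last i with ⟨i, rfl⟩ | rfl
  · obtain ⟨ψ, h3, h4⟩ := hV i.castSucc
    refine ⟨ψ, by simpa using h3, fun k hk => ?_⟩
    rcases Fin.eq_castSucc_or_eq_last k with ⟨k, rfl⟩ | rfl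
    · simpa using h4 _ hk
    · have h5 := h4 _ hk
      rw [add1_last] at h5
      rw [add1_last, map_smul, smul_eq_mul, abs_mul, abs_of_pos hs]
      have h6 : s * |ψ x| ≤ 1 * |ψ x| := mul_le_mul_of_nonneg_right h2 (abs_nonneg _)
      linarith
  · refine ⟨(s * φ x)⁻¹ • φ, ?_, fun k hk => ?_⟩
    · rw [add1_last, LinearMap.smul_apply, map_smul, smul_eq_mul, smul_eq_mul]
      exact inv_mul_cancel₀ (by positivity)
    · rcases Fin.eq_castSucc_or_eq_last k with ⟨k, rfl⟩ | rfl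
      · rw [add1_cast, LinearMap.smul_apply, smul_eq_mul, abs_mul]
        have h7 : |φ (v k)| ≤ 1 := by
          by_cases hkI : k ∈ I
          · exact (h.one k hkI).le
          · exact (h.lt k hkI).le
        have h8 : |(s * φ x)⁻¹| < 1 := by
          rw [abs_of_pos (by positivity)]
          exact inv_lt_one_of_one_lt₀ hsg
        have h9 : |(s * φ x)⁻¹| * |φ (v k)| ≤ |(s * φ x)⁻¹| * 1 :=
          mul_le_mul_of_nonneg_left h7 (abs_nonneg _)
        linarith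
      · exact absurd rfl hk

/-- a point of an interval outside a finite set -/
theorem ng20_choose {a b : ℝ} (hab : a < b) {W : Set ℝ} (hW : W.Finite) :
    ∃ s : ℝ, a < s ∧ s < b ∧ s ∉ W := by
  by_contra hcon
  push Not at hcon
  exact (Set.Ioo_infinite hab) (hW.subset fun s hs => hcon s hs.1 hs.2)

theorem ng20_genB {v : Fin n → (Fin d → ℝ)} {x : Fin d → ℝ} {s : ℝ} (hs : 0 < s)
    (h : s ∉ {s : ℝ | 0 < s ∧ ¬ GenB (add1 v (s • x))}) : GenB (add1 v (s • x)) := by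
  by_contra hcon
  exact h ⟨hs, hcon⟩

theorem ng20_inv_lt_one (hd : 1 ≤ d) {v : Fin n → (Fin d → ℝ)} {x : Fin d → ℝ}
    (hV : Vtx (add1 v x))
    {φ : (Fin d → ℝ) →ₗ[ℝ] ℝ} {I : Finset (Fin n)} {c : Fin n → ℝ}
    (h : FacetAt v x φ I c) : (φ x)⁻¹ < 1 := by
  obtain ⟨ψ, h1, h2⟩ := hV (Fin.last n)
  rw [add1_last] at h1
  have hne : I.Nonempty := by
    rw [← Finset.card_pos, h.card]
    omega
  have h3 : ψ x < φ x := by
    rw [h.sum, h.eq, map_sum]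
    refine Finset.sum_lt_sum_of_nonempty hne (fun k hk => ?_)
    rw [map_smul, smul_eq_mul]
    have h4 : |ψ (v k)| < 1 := by
      have := h2 k.castSucc (Fin.castSucc_lt_last k).ne
      simpa using this
    have h5 : c k * φ (v k) * ψ (v k) ≤ c k * |ψ (v k)| := by
      have h6 : φ (v k) * ψ (v k) ≤ |ψ (v k)| := by
        refine (le_abs_self _).trans ?_
        rw [abs_mul, h.one k hk, one_mul]
      calc c k * φ (v k) * ψ (v k) = c k * (φ (v k) * ψ (v k)) := by ring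
        _ ≤ c k * |ψ (v k)| := mul_le_mul_of_nonneg_left h6 (h.pos k hk).le
    have h7 : c k * |ψ (v k)| < c k * 1 := mul_lt_mul_of_pos_left h4 (h.pos k hk)
    linarith
  rw [h1] at h3
  exact inv_lt_one_of_one_lt₀ h3

theorem path (hd : 4 ≤ d) (hn : d ≤ n) {v : Fin n → (Fin d → ℝ)} {x : Fin d → ℝ}
    (hA : GenA (add1 v x)) (hB : GenB (add1 v x)) (hSG : SG v x) (hV : Vtx (add1 v x)) {m : ℕ}
    (h1 : EE v + d ≤ m) (h2 : m ≤ EE (add1 v x)) :
    ∃ u : Fin (n + 1) → (Fin d → ℝ), GenA u ∧ GenB u ∧ Vtx u ∧ EE u = m := by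
  have hBv := genB_init hB
  have hAv := genA_init hA
  have hVv := vtx_init hV
  obtain ⟨φ, I, c, hF⟩ := facet (by omega) hn hBv hA
  have hg : 0 < φ x := hF.posx (by omega)
  have hg1 : (φ x)⁻¹ < 1 := ng20_inv_lt_one (by omega) hV hF
  have hg0 : 0 < (φ x)⁻¹ := inv_pos.2 hg
  obtain ⟨η, hη, hent⟩ := entry (by omega) hn hAv hVv hF
  have hW := walls_finite hAv hBv x
  obtain ⟨a, ha1, ha2, haW⟩ := ng20_choose
    (lt_min (by linarith : (φ x)⁻¹ < (φ x)⁻¹ + η) hg1) hW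
  have ha3 := lt_min_iff.1 ha2
  have h1W : (1 : ℝ) ∉ {s : ℝ | 0 < s ∧ ¬ GenB (add1 v (s • x))} := by
    rintro ⟨_, h4⟩
    rw [one_smul] at h4
    exact h4 hB
  obtain ⟨s, hsI, hsW, hsE⟩ := ivt_nat ha3.2 (fun s => EE (add1 v (s • x))) _ hW haW h1W
    (fun s hs => local_bound hd hn hA hBv hSG (lt_of_lt_of_le (hg0.trans ha1) hs.1)
      (vtx_path hV (by omega) hF (lt_of_lt_of_le ha1 hs.1) hs.2))
    (m := m) (by
      have := (hent a ha1 ha3.1).2
      rw [this]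
      exact h1) (by
      rw [one_smul]
      exact h2)
  have hs0 : 0 < s := lt_of_lt_of_le (hg0.trans ha1) hsI.1
  exact ⟨add1 v (s • x), genA_smul hA hs0.ne', ng20_genB hs0 hsW,
    vtx_path hV (by omega) hF (lt_of_lt_of_le ha1 hsI.1) hsI.2, hsE⟩

theorem stack (hd : 4 ≤ d) (hn : d ≤ n) {v : Fin n → (Fin d → ℝ)} (hA : GenA v) (hB : GenB v)
    (hV : Vtx v) :
    ∃ u : Fin (n + 1) → (Fin d → ℝ), GenA u ∧ GenB u ∧ Vtx u ∧ EE u = EE v + d := by
  obtain ⟨x, _, hAx, _, _⟩ := add_point (by omega) hA hB 0 1 one_pos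
  obtain ⟨φ, I, c, hF⟩ := facet (by omega) hn hB hAx
  have hg : 0 < φ x := hF.posx (by omega)
  have hg0 : 0 < (φ x)⁻¹ := inv_pos.2 hg
  obtain ⟨η, hη, hent⟩ := entry (by omega) hn hA hV hF
  obtain ⟨s, hs1, hs2, hsW⟩ := ng20_choose
    (by linarith : (φ x)⁻¹ < (φ x)⁻¹ + η) (walls_finite hA hB x)
  have hs0 : 0 < s := hg0.trans hs1
  exact ⟨add1 v (s • x), genA_smul hAx hs0.ne', ng20_genB hs0 hsW, (hent s hs1 hs2).1,
    (hent s hs1 hs2).2⟩

end Pool.Agent.Lib.MP_a3b162_co.NG
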