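import Pool.Agent.Lib.MP_a3b162_co.NG.Dual
import Pool.Agent.Lib.MP_a3b162_co.GB
import Pool.Agent.Lib.MP_a3b162_co.LF

/-!
MODULE ng3 (40 min).  The polytope `PPd v` (general dimension version of LF).

`ppd_polytope`, `ppd_cs`: copy `pp_polytope`, `pp_cs` from `LF.lean` (there `d = 4`).
`ppd_inj`: `Vtx v` gives `φ (v i) = 1`, `|φ (v k)| < 1`.
`ppd_ext`: `⊆` is `extremePoints_convexHull_subset`; `⊇`: for `(i,b)` let `φ` be the functional of
`Vtx v` at `i`; `ψ = sg b • φ` has the value `1` at `sg b • v i` and `< 1` at all other signed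
vertices, so by `lf_face` (in `LF.lean`, general) the only point of `PPd v` with `ψ = 1` (the maximum)
is `sg b • v i`; it is extreme.
`ppd_fzero`: `f_zero` (GA) and `Set.ncard_image_of_injective`/`ncard_univ`.
-/

set_option autoImplicit false

namespace Pool.Agent.Lib.MP_a3b162_co.NG

open Pool.Agent.Lib.MP_a3b162_co

variable {d n : ℕ}

theorem ppd_polytope (hd : 1 ≤ d) (hn : d ≤ n) {v : Fin n → (Fin d → ℝ)} (hA : GenA v) :
    IsPolytope (PPd v) := by
  refine ⟨⟨_, Set.finite_range _, rfl⟩, ?_⟩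
  unfold PPd
  rw [affineSpan_convexHull]
  have hne : (Set.range (fun q : Fin n × Bool => sg q.2 • v q.1)).Nonempty :=
    ⟨_, ⟨(⟨0, by omega⟩, true), rfl⟩⟩
  rw [AffineSubspace.affineSpan_eq_top_iff_vectorSpan_eq_top_of_nonempty ℝ _ _ hne]
  have h1 : ∀ i, v i ∈ vectorSpan ℝ (Set.range (fun q : Fin n × Bool => sg q.2 • v q.1)) := by
    intro i
    have h2 : (fun q : Fin n × Bool => sg q.2 • v q.1) (i, true) -ᵥ
        (fun q : Fin n × Bool => sg q.2 • v q.1) (i, false) ∈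
        vectorSpan ℝ (Set.range (fun q : Fin n × Bool => sg q.2 • v q.1)) :=
      vsub_mem_vectorSpan ℝ ⟨_, rfl⟩ ⟨_, rfl⟩
    have h3 : (fun q : Fin n × Bool => sg q.2 • v q.1) (i, true) -ᵥ
        (fun q : Fin n × Bool => sg q.2 • v q.1) (i, false) = (2 : ℝ) • v i := by
      simp only [vsub_eq_sub, sg_true, sg_false]
      module
    rw [h3] at h2
    have h4 := Submodule.smul_mem _ (1 / 2 : ℝ) h2
    rw [smul_smul] at h4
    norm_num at h4
    exact h4
  have h2 := hA (Finset.univ.map (Fin.castLEEmb hn)) (by simp)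
  have h3 := h2.span_eq_top_of_card_eq_finrank' (by
    rw [Fintype.card_coe, Finset.card_map]
    simp)
  rw [eq_top_iff, ← h3, Submodule.span_le]
  rintro _ ⟨i, rfl⟩
  exact h1 _

theorem ppd_cs (v : Fin n → (Fin d → ℝ)) : ∀ x, (0 : Fin d → ℝ) + x ∈ PPd v →
    (0 : Fin d → ℝ) - x ∈ PPd v := by
  intro x hx
  rw [zero_add] at hx
  rw [zero_sub]
  have e : -(Set.range (fun q : Fin n × Bool => sg q.2 • v q.1)) =
      Set.range (fun q : Fin n × Bool => sg q.2 • v q.1) := by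
    ext y
    constructor
    · rintro ⟨q, hq⟩
      refine ⟨(q.1, !q.2), ?_⟩
      have h1 : (fun q : Fin n × Bool => sg q.2 • v q.1) (q.1, !q.2) =
          - (fun q : Fin n × Bool => sg q.2 • v q.1) q := by
        simp only [sg_not, neg_smul]
      rw [h1, hq, neg_neg]
    · rintro ⟨q, rfl⟩
      refine ⟨(q.1, !q.2), ?_⟩
      simp only [sg_not, neg_smul]
  have h2 : -x ∈ -(convexHull ℝ (Set.range (fun q : Fin n × Bool => sg q.2 • v q.1))) := by
    rw [Set.neg_mem_neg]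
    exact hx
  rw [← convexHull_neg, e] at h2
  exact h2

theorem ppd_inj {v : Fin n → (Fin d → ℝ)} (hV : Vtx v) :
    Function.Injective (fun q : Fin n × Bool => sg q.2 • v q.1) := by
  rintro ⟨i, b⟩ ⟨j, c⟩ h
  simp only at h
  obtain ⟨φ, h1, h2⟩ := hV i
  have h3 : sg b * φ (v i) = sg c * φ (v j) := by
    have := congrArg φ h
    rwa [map_smul, map_smul, smul_eq_mul, smul_eq_mul] at this
  rw [h1, mul_one] at h3
  by_cases hij : i = j
  · subst hij
    rw [h1, mul_one] at h3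
    have : b = c := by
      revert h3
      cases b <;> cases c <;> norm_num
    rw [this]
  · exfalso
    have h4 := h2 j (fun h => hij h.symm)
    have h5 : |sg b| = |sg c * φ (v j)| := by rw [h3]
    rw [abs_mul, abs_sg, abs_sg, one_mul] at h5
    linarith

theorem ppd_le {v : Fin n → (Fin d → ℝ)} {i : Fin n} (b : Bool) {φ : (Fin d → ℝ) →ₗ[ℝ] ℝ}
    (h1 : φ (v i) = 1) (h2 : ∀ k, k ≠ i → |φ (v k)| < 1) (q : Fin n × Bool) :
    (sg b • φ) (sg q.2 • v q.1) ≤ 1 ∧ ((sg b • φ) (sg q.2 • v q.1) = 1 → q = (i, b)) := by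
  obtain ⟨k, c⟩ := q
  have e : (sg b • φ) (sg c • v k) = sg b * sg c * φ (v k) := by
    simp only [LinearMap.smul_apply, map_smul, smul_eq_mul]
    ring
  show (sg b • φ) (sg c • v k) ≤ 1 ∧ ((sg b • φ) (sg c • v k) = 1 → (k, c) = (i, b))
  rw [e]
  by_cases hk : k = i
  · subst hk
    rw [h1, mul_one]
    refine ⟨?_, fun h => ?_⟩
    · cases b <;> cases c <;> norm_num
    · rw [(lf_sg b c).1 h]
  · have h4 := h2 k hk
    have h5 : |sg b * sg c * φ (v k)| < 1 := by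
      rw [abs_mul, abs_mul, abs_sg, abs_sg, one_mul, one_mul]
      exact h4
    have h6 := (abs_lt.1 h5).2
    exact ⟨h6.le, fun h => absurd h h6.ne⟩

theorem ppd_ext {v : Fin n → (Fin d → ℝ)} (hV : Vtx v) :
    (PPd v).extremePoints ℝ = Set.range fun q : Fin n × Bool => sg q.2 • v q.1 := by
  apply Set.Subset.antisymm extremePoints_convexHull_subset
  rintro _ ⟨⟨i, b⟩, rfl⟩
  obtain ⟨φ, h1, h2⟩ := hV i
  set ψ : (Fin d → ℝ) →ₗ[ℝ] ℝ := sg b • φ with hψ
  have hle := fun q => ppd_le b h1 h2 q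
  rw [← hψ] at hle
  have hle2 : ∀ x ∈ PPd v, ψ x ≤ 1 := by
    intro x hx
    have hc : Convex ℝ {x | ψ x ≤ 1} := convex_halfSpace_le ψ.isLinear 1
    exact convexHull_min (by rintro _ ⟨q, rfl⟩; exact (hle q).1) hc hx
  have hface : ∀ x ∈ PPd v, ψ x = 1 → x = sg b • v i := by
    intro x hx hx1
    have h4 := lf_face _ (Set.finite_range _) ψ 1
      (by rintro _ ⟨q, rfl⟩; exact (hle q).1) hx hx1
    have h5 : x ∈ convexHull ℝ {sg b • v i} := by
      refine convexHull_mono ?_ h4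
      rintro _ ⟨⟨q, rfl⟩, hq⟩
      rw [(hle q).2 hq]
      simp
    rw [convexHull_singleton] at h5
    exact h5
  have hmem : sg b • v i ∈ PPd v := subset_convexHull ℝ _ ⟨(i, b), rfl⟩
  have hψi : ψ (sg b • v i) = 1 := by
    simp only [hψ, LinearMap.smul_apply, map_smul, smul_eq_mul, h1, mul_one]
    exact sg_mul_self b
  show sg b • v i ∈ _
  rw [mem_extremePoints]
  refine ⟨hmem, ?_⟩
  intro x₁ hx₁ x₂ hx₂ hx
  obtain ⟨a, c, ha, hc, hac, he⟩ := hx
  have g1 := hle2 x₁ hx₁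
  have g2 := hle2 x₂ hx₂
  have g3 : a * ψ x₁ + c * ψ x₂ = 1 := by
    rw [← hψi, ← he, map_add, map_smul, map_smul, smul_eq_mul, smul_eq_mul]
  have g4 : ψ x₁ = 1 := by nlinarith
  have g5 : ψ x₂ = 1 := by nlinarith
  exact ⟨hface x₁ hx₁ g4, hface x₂ hx₂ g5⟩

theorem ppd_fzero (hd : 1 ≤ d) (hn : d ≤ n) {v : Fin n → (Fin d → ℝ)} (hA : GenA v)
    (hV : Vtx v) : f 0 (PPd v) = 2 * n := by
  rw [f_zero (ppd_polytope hd hn hA), ppd_ext hV, ← Set.image_univ,
    Set.ncard_image_of_injective _ (ppd_inj hV), Set.ncard_univ, Nat.card_prod]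
  simp
  ring

end Pool.Agent.Lib.MP_a3b162_co.NG
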