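import Pool.Agent.Lib.MP_a3b162_co.NG.Dual
import Pool.Agent.Lib.MP_a3b162_co.NG.NotPres

/-!
MODULE ng11 (45 min).  The dependency of a weakly present, absent edge.

Let `φ` be the functional of `WPres`, `(t, κ)` from `not_pres`.  Apply `φ`:
`1 = (1-t) φ(u i) + t sg b φ(u j) = ∑ κ k φ(u k) ≤ ∑ |κ k| |φ (u k)| ≤ ∑ |κ k| ≤ 1`, so everything is an
equality: `∑ |κ k| = 1` and `κ k * φ (u k) = |κ k|` for every `k`; in particular `|φ (u k)| = 1` if `κ k ≠ 0`.
`0 < t`: if `t ≤ 0`, then `(1-t) • u i = ∑ κ k • u k - (t * sg b) • u j`; take the functional `ψ` of `Vtx u` at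
`i`: `1 - t = ∑ κ k ψ(u k) - t sg b ψ(u j) ≤ ∑ |κ k| |ψ(u k)| + |t| |ψ (u j)| < ∑ |κ k| + |t| = 1 - t`
(strict, since some `κ k ≠ 0` (`∑ |κ k| = 1`), `k ≠ i`, and `|ψ (u k)| < 1`): contradiction.
`t < 1` in the same way with `j` (`t ≥ 1`: `(t * sg b) • u j = (t - 1) • u i + ∑ κ k • u k`).
`c i = 1 - t`, `c j = t * sg b`, `c k = - κ k` otherwise (`κ i = κ j = 0`).  More than `d` of them are nonzero by
`dep_zero` (`c i ≠ 0`).
-/

set_option autoImplicit false

namespace Pool.Agent.Lib.MP_a3b162_co.NG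

open Pool.Agent.Lib.MP_a3b162_co

variable {d n : ℕ}

theorem WData_sum {κ : Fin n → ℝ} {f : Fin n → ℝ} (h1 : ∀ k, |f k| ≤ 1) :
    |∑ k, κ k * f k| ≤ ∑ k, |κ k| := by
  refine (Finset.abs_sum_le_sum_abs _ _).trans (Finset.sum_le_sum fun k _ => ?_)
  rw [abs_mul]
  exact mul_le_of_le_one_right (abs_nonneg _) (h1 k)

/-- `|∑ κ k f k| < 1` when `∑ |κ k| = 1` and `|f k| < 1` on the support -/
theorem WData_lt {κ : Fin n → ℝ} {f : Fin n → ℝ} (hκ : ∑ k, |κ k| = 1)
    (h1 : ∀ k, κ k ≠ 0 → |f k| < 1) : |∑ k, κ k * f k| < 1 := by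
  have h2 : ∃ k, κ k ≠ 0 := by
    by_contra hcon
    push Not at hcon
    have : ∑ k, |κ k| = 0 := Finset.sum_eq_zero fun k _ => by rw [hcon k, abs_zero]
    rw [this] at hκ
    exact zero_ne_one hκ
  obtain ⟨k0, hk0⟩ := h2
  refine (Finset.abs_sum_le_sum_abs _ _).trans_lt ?_
  rw [← hκ]
  refine Finset.sum_lt_sum (fun k _ => ?_) ⟨k0, Finset.mem_univ _, ?_⟩
  · rw [abs_mul]
    by_cases hk : κ k = 0
    · rw [hk]; simp
    · exact mul_le_of_le_one_right (abs_nonneg _) (h1 k hk).le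
  · rw [abs_mul]
    exact mul_lt_of_lt_one_right (abs_pos.2 hk0) (h1 k0 hk0)

theorem wall_data {u : Fin n → (Fin d → ℝ)} (hA : GenA u) (hV : Vtx u) {i j : Fin n}
    (hij : i ≠ j) {b : Bool} (h1 : WPres u i j b) (h2 : ¬ Pres u i j b) :
    ∃ (φ : (Fin d → ℝ) →ₗ[ℝ] ℝ) (c : Fin n → ℝ), (∑ k, c k • u k = 0) ∧
      φ (u i) = 1 ∧ φ (u j) = sg b ∧ 0 < c i * φ (u i) ∧ 0 < c j * φ (u j) ∧
      (∀ k, k ≠ i → k ≠ j → c k ≠ 0 → c k * φ (u k) < 0) ∧
      (∀ k, c k ≠ 0 → |φ (u k)| = 1) ∧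
      d < (Finset.univ.filter fun k => c k ≠ 0).card := by
  classical
  obtain ⟨φ, p1, p2, p3⟩ := h1
  obtain ⟨t, κ, q1, q2, q3, q4⟩ := not_pres hij h2
  -- apply `φ`
  have e1 : ∑ k, κ k * φ (u k) = 1 := by
    have := congrArg φ q4
    rw [map_add, map_smul, map_smul, p1, p2, map_sum] at this
    simp only [map_smul, smul_eq_mul] at this
    have hss := sg_mul_self b
    linear_combination -this + t * hss
  have e2 : ∀ k, κ k * φ (u k) ≤ |κ k| := by
    intro k
    calc κ k * φ (u k) ≤ |κ k * φ (u k)| := le_abs_self _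
      _ = |κ k| * |φ (u k)| := abs_mul _ _
      _ ≤ |κ k| * 1 := mul_le_mul_of_nonneg_left (p3 k) (abs_nonneg _)
      _ = |κ k| := mul_one _
  have e3 : ∑ k, |κ k| = 1 := by
    apply le_antisymm q3
    rw [← e1]
    exact Finset.sum_le_sum fun k _ => e2 k
  have e4 : ∀ k, κ k * φ (u k) = |κ k| := by
    have e5 : ∑ k, (|κ k| - κ k * φ (u k)) = 0 := by
      rw [Finset.sum_sub_distrib, e1, e3, sub_self]
    have e6 := (Finset.sum_eq_zero_iff_of_nonneg (fun k _ => sub_nonneg.2 (e2 k))).1 e5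
    intro k
    have := e6 k (Finset.mem_univ k)
    linarith
  have hκφ : ∀ k, κ k ≠ 0 → |φ (u k)| = 1 := by
    intro k hk
    have e5 := e4 k
    have e6 : |κ k| * |φ (u k)| = |κ k| := by
      rw [← abs_mul, e5, abs_abs]
    have e7 : |κ k| ≠ 0 := abs_ne_zero.2 hk
    exact mul_left_cancel₀ e7 (by rw [e6, mul_one])
  -- `t < 1`
  have ht1 : t < 1 := by
    by_contra hcon
    push Not at hcon
    obtain ⟨ψ, r1, r2⟩ := hV j
    have r3 := WData_lt (f := fun k => ψ (u k)) e3 (fun k hk => r2 k (by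
      rintro rfl
      exact hk q2))
    have r4 := congrArg ψ q4
    rw [map_add, map_smul, map_smul, r1, map_sum] at r4
    simp only [map_smul, smul_eq_mul, mul_one] at r4
    have r5 := r2 i hij
    have r6 : t * sg b = (t - 1) * ψ (u i) + ∑ k, κ k * ψ (u k) := by
      linear_combination r4
    have r7 : |t * sg b| = t := by
      rw [abs_mul, abs_sg, mul_one, abs_of_nonneg (by linarith)]
    have r8 : |(t - 1) * ψ (u i)| ≤ t - 1 := by
      rw [abs_mul, abs_of_nonneg (by linarith : (0 : ℝ) ≤ t - 1)]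
      exact mul_le_of_le_one_right (by linarith) r5.le
    have r9 : |t * sg b| ≤ |(t - 1) * ψ (u i)| + |∑ k, κ k * ψ (u k)| := by
      rw [r6]
      exact abs_add_le _ _
    rw [r7] at r9
    linarith
  -- `0 < t`
  have ht0 : 0 < t := by
    by_contra hcon
    push Not at hcon
    obtain ⟨ψ, r1, r2⟩ := hV i
    have r3 := WData_lt (f := fun k => ψ (u k)) e3 (fun k hk => r2 k (by
      rintro rfl
      exact hk q1))
    have r4 := congrArg ψ q4
    rw [map_add, map_smul, map_smul, r1, map_sum] at r4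
    simp only [map_smul, smul_eq_mul, mul_one] at r4
    have r5 := r2 j hij.symm
    have r6 : 1 - t = (-t * sg b) * ψ (u j) + ∑ k, κ k * ψ (u k) := by
      linear_combination r4
    have r8 : |(-t * sg b) * ψ (u j)| ≤ -t := by
      rw [abs_mul, abs_mul, abs_sg, mul_one, abs_of_nonneg (by linarith : (0 : ℝ) ≤ -t)]
      exact mul_le_of_le_one_right (by linarith) r5.le
    have r9 : 1 - t ≤ |(-t * sg b) * ψ (u j)| + |∑ k, κ k * ψ (u k)| := by
      rw [r6]
      exact (le_abs_self _).trans (abs_add_le _ _)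
    linarith
  have hji : j ≠ i := hij.symm
  set c : Fin n → ℝ := fun k => if k = i then 1 - t else if k = j then t * sg b else -κ k with hcdef
  have ci : c i = 1 - t := by simp [hcdef]
  have cj : c j = t * sg b := by simp [hcdef, hji]
  have ck : ∀ k, k ≠ i → k ≠ j → c k = -κ k := by
    intro k h3 h4
    simp [hcdef, h3, h4]
  have hc0 : ∑ k, c k • u k = 0 := by
    have e5 : ∀ k, c k • u k = (if k = i then (1 - t) • u i else 0) +
        (if k = j then (t * sg b) • u j else 0) - κ k • u k := by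
      intro k
      by_cases h3 : k = i
      · subst h3
        rw [ci, q1]
        simp [hij]
      · by_cases h4 : k = j
        · subst h4
          rw [cj, q2]
          simp [hji]
        · rw [ck k h3 h4]
          simp [h3, h4]
    rw [Finset.sum_congr rfl fun k _ => e5 k, Finset.sum_sub_distrib, Finset.sum_add_distrib,
      Finset.sum_ite_eq' Finset.univ i (fun _ => (1 - t) • u i),
      Finset.sum_ite_eq' Finset.univ j (fun _ => (t * sg b) • u j)]
    simp only [Finset.mem_univ, if_true]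
    rw [q4, sub_self]
  have hck : ∀ k, c k ≠ 0 → |φ (u k)| = 1 := by
    intro k hk
    by_cases h3 : k = i
    · rw [h3, p1]; simp
    by_cases h4 : k = j
    · rw [h4, p2, abs_sg]
    rw [ck k h3 h4] at hk
    exact hκφ k (neg_ne_zero.1 hk)
  refine ⟨φ, c, hc0, p1, p2, ?_, ?_, ?_, hck, ?_⟩
  · rw [ci, p1]; linarith
  · rw [cj, p2, mul_assoc, sg_mul_self]; linarith
  · intro k h3 h4 h5
    rw [ck k h3 h4] at h5 ⊢
    have h6 : 0 < |κ k| := abs_pos.2 (neg_ne_zero.1 h5)
    have h7 := e4 k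
    linarith
  · by_contra hcon
    push Not at hcon
    have h3 := dep_zero hA hcon hc0 (fun k hk => by
      by_contra hne
      exact hk (Finset.mem_filter.2 ⟨Finset.mem_univ _, hne⟩)) i
    rw [ci] at h3
    linarith

/-- in general position there are no weakly present absent edges -/
theorem no_wall {u : Fin n → (Fin d → ℝ)} (hA : GenA u) (hB : GenB u) (hV : Vtx u) {i j : Fin n}
    (hij : i ≠ j) {b : Bool} (h1 : WPres u i j b) : Pres u i j b := by
  by_contra h2
  obtain ⟨φ, c, -, -, -, -, -, -, h3, h4⟩ := wall_data hA hV hij h1 h2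
  have h5 := hB (Finset.univ.filter fun k => c k ≠ 0) φ
    (fun k hk => h3 k (Finset.mem_filter.1 hk).2)
  omega

end Pool.Agent.Lib.MP_a3b162_co.NG
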