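import Pool.Agent.Lib.MP_a3b162_co.NG.WData

/-!
MODULE ng12 (55 min).  At a wall at most one edge class is weakly present and absent (`d ≥ 4`).

`u = add1 v (s • x)`; `GenA u` is `genA_smul`.  `wall_data` gives `(φ, c)` and `(φ', c')`.
Let `T = {k | c k ≠ 0}`, `|T| > d`, `|φ (u k)| = 1` on `T`.  The indices of `S_φ = {k | |φ (u k)| = 1}` other than
`last` are at most `d` (`hB`), so `|S_φ| ≤ d + 1`, hence `T = S_φ`, `|T| = d + 1`, `last ∈ T`, `φ ∈ Phi v` (with
`I` = the old indices of `T`) and `|s * φ x| = 1`.  Same for `φ'`.  So `φ' x = ± φ x`, and by `SG`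
(and `phi_neg`) `φ' = τ • φ` with `τ = 1` or `τ = -1`.  So `T' = S_φ' = S_φ = T`.
`c'_last • c - c_last • c'` is a dependency supported on `T \ {last}`, of size `d`: zero (`dep_zero`), so
`c' = λ c` with `λ = c'_last / c_last ≠ 0`.  Hence `c' k φ'(u k) = λ τ c k φ (u k)` for all `k`.
If `λ τ < 0`: every `k ∈ T`, `k ≠ i, j` has `c' k φ' (u k) > 0`, so `k ∈ {i', j'}`: `d + 1 - 2 ≤ 2`,
contradicting `d ≥ 4`.  If `λ τ > 0`: `{i, j} = {k | c k φ(u k) > 0} = {i', j'}`, so `i = i'`, `j = j'` by the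
order; `1 = φ' (u i) = τ φ (u i) = τ`, so `sg b' = φ' (u j) = φ (u j) = sg b`.
-/

set_option autoImplicit false

namespace Pool.Agent.Lib.MP_a3b162_co.NG

open Pool.Agent.Lib.MP_a3b162_co

variable {d n : ℕ}

theorem WUnique_core {v : Fin n → (Fin d → ℝ)} {y : Fin d → ℝ} (hB : GenB v)
    {φ : (Fin d → ℝ) →ₗ[ℝ] ℝ} {c : Fin (n + 1) → ℝ}
    (h3 : ∀ k, c k ≠ 0 → |φ (add1 v y k)| = 1)
    (h4 : d < (Finset.univ.filter fun k => c k ≠ 0).card) :
    φ ∈ Phi v ∧ |φ y| = 1 ∧ c (Fin.last n) ≠ 0 ∧
      (Finset.univ.filter fun k => c k ≠ 0).card = d + 1 ∧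
      ∀ k, c k ≠ 0 ↔ |φ (add1 v y k)| = 1 := by
  classical
  set T : Finset (Fin (n + 1)) := Finset.univ.filter fun k => c k ≠ 0 with hT
  set S : Finset (Fin (n + 1)) := Finset.univ.filter fun k => |φ (add1 v y k)| = 1 with hS
  set S' : Finset (Fin n) := Finset.univ.filter fun k => |φ (v k)| = 1 with hS'
  have h5 : S'.card ≤ d := hB S' φ fun k hk => (Finset.mem_filter.1 hk).2
  have h6 : S.erase (Fin.last n) ⊆ S'.map Fin.castSuccEmb := by
    intro k hk
    obtain ⟨hk1, hk2⟩ := Finset.mem_erase.1 hk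
    rcases Fin.eq_castSucc_or_eq_last k with ⟨k', rfl⟩ | rfl
    · have h7 := (Finset.mem_filter.1 hk2).2
      rw [add1_cast] at h7
      exact Finset.mem_map.2 ⟨k', Finset.mem_filter.2 ⟨Finset.mem_univ _, h7⟩, rfl⟩
    · exact absurd rfl hk1
  have h7 : (S.erase (Fin.last n)).card ≤ S'.card := by
    have := Finset.card_le_card h6
    rwa [Finset.card_map] at this
  have hTS : T ⊆ S := by
    intro k hk
    exact Finset.mem_filter.2 ⟨Finset.mem_univ _, h3 k (Finset.mem_filter.1 hk).2⟩
  have h8 := Finset.card_le_card hTS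
  have hlast : Fin.last n ∈ S := by
    by_contra hl
    rw [Finset.erase_eq_of_notMem hl] at h7
    omega
  have h9 : (S.erase (Fin.last n)).card + 1 = S.card := Finset.card_erase_add_one hlast
  have h10 : T = S := Finset.eq_of_subset_of_card_le hTS (by omega)
  refine ⟨⟨S', by omega, fun k hk => (Finset.mem_filter.1 hk).2⟩, ?_, ?_, by omega, ?_⟩
  · have := (Finset.mem_filter.1 hlast).2
    rwa [add1_last] at this
  · rw [← h10] at hlast
    exact (Finset.mem_filter.1 hlast).2
  · intro k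
    have h11 : k ∈ T ↔ k ∈ S := by rw [h10]
    simpa [hT, hS] using h11

theorem wall_unique (hd : 4 ≤ d) {v : Fin n → (Fin d → ℝ)} {x : Fin d → ℝ} (hB : GenB v)
    (hSG : SG v x) (hA : GenA (add1 v x)) {s : ℝ} (hs : 0 < s) (hV : Vtx (add1 v (s • x)))
    {i j i' j' : Fin (n + 1)} {b b' : Bool} (hij : i < j) (hij' : i' < j')
    (h1 : WPres (add1 v (s • x)) i j b) (h2 : ¬ Pres (add1 v (s • x)) i j b)
    (h1' : WPres (add1 v (s • x)) i' j' b') (h2' : ¬ Pres (add1 v (s • x)) i' j' b') :
    i = i' ∧ j = j' ∧ b = b' := by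
  classical
  have hA' : GenA (add1 v (s • x)) := genA_smul hA hs.ne'
  obtain ⟨φ, c, hc, a1, a2, a3, a4, a5, a6, a7⟩ := wall_data hA' hV hij.ne h1 h2
  obtain ⟨φ', c', hc', a1', a2', a3', a4', a5', a6', a7'⟩ := wall_data hA' hV hij'.ne h1' h2'
  obtain ⟨b1, b2, b3, b4, b5⟩ := WUnique_core hB a6 a7
  obtain ⟨b1', b2', b3', b4', b5'⟩ := WUnique_core hB a6' a7'
  -- `φ' = τ φ`
  obtain ⟨τ, hτ, hφ⟩ : ∃ τ : ℝ, (τ = 1 ∨ τ = -1) ∧ ∀ y, φ' y = τ * φ y := by
    have e : |φ x| = |φ' x| := by
      have e1 : |s * φ x| = |s * φ' x| := by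
        rw [← smul_eq_mul, ← smul_eq_mul, ← map_smul, ← map_smul, b2, b2']
      rw [abs_mul, abs_mul] at e1
      exact mul_left_cancel₀ (abs_pos.2 hs.ne').ne' e1
    rcases abs_eq_abs.1 e with e2 | e2
    · refine ⟨1, Or.inl rfl, fun y => ?_⟩
      have e3 : φ = φ' := by
        by_contra hne
        exact hSG φ b1 φ' b1' hne e2
      rw [e3, one_mul]
    · refine ⟨-1, Or.inr rfl, fun y => ?_⟩
      have e3 : φ = -φ' := by
        by_contra hne
        exact hSG φ b1 (-φ') (phi_neg b1') hne (by rw [LinearMap.neg_apply]; exact e2)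
      rw [e3, LinearMap.neg_apply]
      ring
  have hτ0 : τ ≠ 0 := by rcases hτ with h | h <;> rw [h] <;> norm_num
  have hτa : |τ| = 1 := by rcases hτ with h | h <;> rw [h] <;> norm_num
  have hsupp : ∀ k, c' k ≠ 0 ↔ c k ≠ 0 := by
    intro k
    rw [b5', b5, hφ, abs_mul, hτa, one_mul]
  -- proportional dependencies
  set μ : ℝ := c' (Fin.last n) / c (Fin.last n) with hμ
  have hμ0 : μ ≠ 0 := div_ne_zero b3' b3
  have hprop : ∀ k, c' k = μ * c k := by
    have e1 : ∀ k, c' k - μ * c k = 0 := by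
      apply dep_zero hA' (I := (Finset.univ.filter fun k => c k ≠ 0).erase (Fin.last n))
      · have hm : Fin.last n ∈ (Finset.univ.filter fun k => c k ≠ 0) := by
          rw [Finset.mem_filter]
          exact ⟨Finset.mem_univ _, b3⟩
        rw [Finset.card_erase_of_mem hm, b4]
        omega
      · have e2 : ∀ k, (c' k - μ * c k) • add1 v (s • x) k =
            c' k • add1 v (s • x) k - μ • (c k • add1 v (s • x) k) := by
          intro k
          rw [sub_smul, mul_smul]
        rw [Finset.sum_congr rfl fun k _ => e2 k, Finset.sum_sub_distrib, ← Finset.smul_sum, hc,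
          hc', smul_zero, sub_zero]
      · intro k hk
        by_cases hkl : k = Fin.last n
        · rw [hkl, hμ, div_mul_cancel₀ _ b3, sub_self]
        · have e3 : c k = 0 := by
            by_contra hne
            exact hk (Finset.mem_erase.2 ⟨hkl, Finset.mem_filter.2 ⟨Finset.mem_univ _, hne⟩⟩)
          have e4 : c' k = 0 := by
            by_contra hne
            exact (hsupp k).1 hne e3
          rw [e3, e4, mul_zero, sub_zero]
    intro k
    linarith [e1 k]
  have hsign : ∀ k, c' k * φ' (add1 v (s • x) k) = (μ * τ) * (c k * φ (add1 v (s • x) k)) := by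
    intro k
    rw [hprop, hφ]
    ring
  have hcard : ∀ p q : Fin (n + 1), p ≠ q → ∃ k, c k ≠ 0 ∧ k ≠ i ∧ k ≠ j ∧ k ≠ p ∧ k ≠ q := by
    intro p q _
    by_contra hcon
    push Not at hcon
    have e1 : (Finset.univ.filter fun k => c k ≠ 0) ⊆ {i, j, p, q} := by
      intro k hk
      have hk' := (Finset.mem_filter.1 hk).2
      by_contra hne
      simp only [Finset.mem_insert, Finset.mem_singleton, not_or] at hne
      exact hne.2.2.2 (hcon k hk' hne.1 hne.2.1 hne.2.2.1)
    have e2 := Finset.card_le_card e1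
    have e3 : ({i, j, p, q} : Finset (Fin (n + 1))).card ≤ 4 := Finset.card_le_four
    omega
  have hpos : 0 < μ * τ := by
    rcases lt_or_gt_of_ne (mul_ne_zero hμ0 hτ0) with hneg | hpos
    · exfalso
      obtain ⟨k, k1, k2, k3, k4, k5⟩ := hcard i' j' hij'.ne
      have e1 := a5 k k2 k3 k1
      have e2 := a5' k k4 k5 ((hsupp k).2 k1)
      rw [hsign] at e2
      have e3 := mul_pos_of_neg_of_neg hneg e1
      linarith
    · exact hpos
  have hiff : ∀ k, (k = i ∨ k = j) ↔ (k = i' ∨ k = j') := by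
    intro k
    have e1 : (k = i ∨ k = j) ↔ 0 < c k * φ (add1 v (s • x) k) := by
      constructor
      · rintro (rfl | rfl)
        · exact a3
        · exact a4
      · intro h
        by_contra hne
        push Not at hne
        have h0 : c k ≠ 0 := by
          intro h0
          rw [h0, zero_mul] at h
          exact lt_irrefl _ h
        have := a5 k hne.1 hne.2 h0
        linarith
    have e2 : (k = i' ∨ k = j') ↔ 0 < c' k * φ' (add1 v (s • x) k) := by
      constructor
      · rintro (rfl | rfl)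
        · exact a3'
        · exact a4'
      · intro h
        by_contra hne
        push Not at hne
        have h0 : c' k ≠ 0 := by
          intro h0
          rw [h0, zero_mul] at h
          exact lt_irrefl _ h
        have := a5' k hne.1 hne.2 h0
        linarith
    rw [e1, e2, hsign]
    exact (mul_pos_iff_of_pos_left hpos).symm
  have hii : i = i' ∧ j = j' := by
    have f1 := (hiff i).1 (Or.inl rfl)
    have f2 := (hiff j).1 (Or.inr rfl)
    rcases f1 with f1 | f1
    · rcases f2 with f2 | f2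
      · exact absurd (f1.trans f2.symm) hij.ne
      · exact ⟨f1, f2⟩
    · exfalso
      rcases f2 with f2 | f2
      · rw [f1, f2] at hij
        exact lt_asymm hij hij'
      · exact absurd (f1.trans f2.symm) hij.ne
  obtain ⟨rfl, rfl⟩ := hii
  refine ⟨rfl, rfl, ?_⟩
  have g1 : τ = 1 := by
    have := hφ (add1 v (s • x) i)
    rw [a1, a1', mul_one] at this
    exact this.symm
  have g2 := hφ (add1 v (s • x) j)
  rw [a2, a2', g1, one_mul] at g2
  cases b <;> cases b' <;> first | rfl | (exfalso; norm_num at g2)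

end Pool.Agent.Lib.MP_a3b162_co.NG
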